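import Mathlib

/-! MP_b0e841_co, number field lemma I: the ideal divisor bound. -/

namespace Pool.Agent.Lib.MPb0e841.NF

open NumberField UniqueFactorizationMonoid

theorem exists_pow_le (n : ℕ) : ∃ A : ℝ, 1 ≤ A ∧ ∀ e : ℕ, ((e : ℝ) + 1) ^ n ≤ A * 2 ^ e := by
  obtain ⟨B, hB⟩ :=
    (tendsto_pow_const_div_const_pow_of_one_lt n (r := (2 : ℝ)) (by norm_num)).bddAbove_range
  refine ⟨max 1 (2 * B), le_max_left _ _, fun e => ?_⟩
  have h1 : (((e + 1 : ℕ) : ℝ)) ^ n / 2 ^ (e + 1) ≤ B := hB ⟨e + 1, rfl⟩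
  rw [div_le_iff₀ (by positivity)] at h1
  calc ((e : ℝ) + 1) ^ n = (((e + 1 : ℕ) : ℝ)) ^ n := by push_cast; ring
    _ ≤ B * 2 ^ (e + 1) := h1
    _ = (2 * B) * 2 ^ e := by ring
    _ ≤ max 1 (2 * B) * 2 ^ e := by gcongr; exact le_max_right _ _

/-- The number of divisors of a nonzero ideal is at most the product of `e_P + 1`. -/
theorem card_divisors_le_prod (K : Type) [Field K] [NumberField K] [DecidableEq (Ideal (𝓞 K))]
    (I : Ideal (𝓞 K)) (hI : I ≠ ⊥) (S : Finset (Ideal (𝓞 K))) (hS : ∀ J ∈ S, J ∣ I) :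
    S.card ≤ ∏ P ∈ (normalizedFactors I).toFinset, ((normalizedFactors I).count P + 1) := by
  classical
  have hne : ∀ J ∈ S, J ≠ 0 := fun J hJ h0 => hI (by
    have := hS J hJ
    rw [h0, zero_dvd_iff] at this
    simpa using this)
  have hI0 : I ≠ 0 := by simpa using hI
  have h1 : S.card ≤ (Finset.Iic (normalizedFactors I)).card := by
    refine Finset.card_le_card_of_injOn (fun J => normalizedFactors J) ?_ ?_
    · intro J hJ
      have hJ' : J ∈ S := by simpa using hJ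
      have := (dvd_iff_normalizedFactors_le_normalizedFactors (hne J hJ') hI0).1 (hS J hJ')
      simpa using this
    · intro J hJ J' hJ' hEq
      have hJ1 : J ∈ S := by simpa using hJ
      have hJ2 : J' ∈ S := by simpa using hJ'
      have e1 := Ideal.prod_normalizedFactors_eq_self (by simpa using hne J hJ1 : J ≠ ⊥)
      have e2 := Ideal.prod_normalizedFactors_eq_self (by simpa using hne J' hJ2 : J' ≠ ⊥)
      rw [← e1, ← e2]
      exact congrArg Multiset.prod hEq
  refine h1.trans (le_of_eq ?_)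
  rw [Multiset.card_Iic]

/-- LEMMA I (ideal divisor bound). -/
theorem card_ideal_divisors_le (K : Type) [Field K] [NumberField K] (n : ℕ) (hn : n ≠ 0) :
    ∃ C : ℝ, 1 ≤ C ∧ ∀ H : ℝ, 1 ≤ H → ∀ I : Ideal (𝓞 K), I ≠ ⊥ →
      ((Ideal.absNorm I : ℕ) : ℝ) ≤ H ^ n → ∀ S : Finset (Ideal (𝓞 K)), (∀ J ∈ S, J ∣ I) →
        (S.card : ℝ) ≤ C * H := by
  classical
  obtain ⟨A, hA1, hA⟩ := exists_pow_le n
  have hfin : {J : Ideal (𝓞 K) | Ideal.absNorm J ≤ 2 ^ n}.Finite :=
    Ideal.finite_setOfPred_absNorm_le (2 ^ n)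
  set T : Finset (Ideal (𝓞 K)) := hfin.toFinset with hT
  refine ⟨A ^ T.card, one_le_pow₀ hA1, fun H hH I hI hN S hS => ?_⟩
  set m := normalizedFactors I with hm
  have hcard := card_divisors_le_prod K I hI S hS
  -- the norm as a product
  have hnorm : Ideal.absNorm I = ∏ P ∈ m.toFinset, Ideal.absNorm P ^ m.count P := by
    conv_lhs => rw [← Ideal.prod_normalizedFactors_eq_self hI]
    rw [map_multiset_prod, Finset.prod_multiset_map_count]
  -- the local bound
  have hloc : ∀ P ∈ m.toFinset,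
      (((m.count P : ℕ) : ℝ) + 1) ^ n ≤
        (if P ∈ T then A else 1) * ((Ideal.absNorm P : ℕ) : ℝ) ^ m.count P := by
    intro P hP
    have hPm : P ∈ m := by simpa using hP
    have hprime : Prime P := prime_of_normalized_factor P hPm
    have hP2 : 2 ≤ Ideal.absNorm P := by
      have h0 : Ideal.absNorm P ≠ 0 := by
        rw [Ne, Ideal.absNorm_eq_zero_iff]
        simpa using hprime.ne_zero
      have h1 : Ideal.absNorm P ≠ 1 := by
        rw [Ne, Ideal.absNorm_eq_one_iff]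
        intro h
        exact hprime.not_isUnit (Ideal.isUnit_iff.2 h)
      omega
    split_ifs with hPT
    · refine (hA _).trans ?_
      have : (2 : ℝ) ≤ ((Ideal.absNorm P : ℕ) : ℝ) := by exact_mod_cast hP2
      have hA0 : 0 ≤ A := by linarith
      gcongr
    · have hbig : 2 ^ n ≤ Ideal.absNorm P := by
        by_contra hlt
        exact hPT (by rw [hT, Set.Finite.mem_toFinset]; exact (not_le.1 hlt).le)
      have h2 : ((m.count P : ℕ) : ℝ) + 1 ≤ 2 ^ m.count P := by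
        have : m.count P + 1 ≤ 2 ^ m.count P := Nat.lt_two_pow_self
        exact_mod_cast this
      have h3 : ((2 : ℝ) ^ n) ≤ ((Ideal.absNorm P : ℕ) : ℝ) := by exact_mod_cast hbig
      calc (((m.count P : ℕ) : ℝ) + 1) ^ n ≤ (2 ^ m.count P) ^ n := by gcongr
        _ = ((2 : ℝ) ^ n) ^ m.count P := by rw [← pow_mul, ← pow_mul, mul_comm]
        _ ≤ ((Ideal.absNorm P : ℕ) : ℝ) ^ m.count P := by gcongr
        _ = 1 * ((Ideal.absNorm P : ℕ) : ℝ) ^ m.count P := (one_mul _).symm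
  have hprod : (∏ P ∈ m.toFinset, (((m.count P : ℕ) : ℝ) + 1)) ^ n ≤
      A ^ T.card * ((Ideal.absNorm I : ℕ) : ℝ) := by
    rw [← Finset.prod_pow]
    refine (Finset.prod_le_prod (fun _ _ => by positivity) hloc).trans ?_
    rw [Finset.prod_mul_distrib]
    have e1 : ((Ideal.absNorm I : ℕ) : ℝ) =
        ∏ P ∈ m.toFinset, ((Ideal.absNorm P : ℕ) : ℝ) ^ m.count P := by
      rw [hnorm]; push_cast; rfl
    rw [e1]
    have e2 : (∏ P ∈ m.toFinset, (if P ∈ T then A else (1 : ℝ))) ≤ A ^ T.card := by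
      rw [Finset.prod_ite, Finset.prod_const, Finset.prod_const_one, mul_one]
      refine pow_le_pow_right₀ hA1 (Finset.card_le_card ?_)
      intro P hP
      exact (Finset.mem_filter.1 hP).2
    have e3 : 0 ≤ ∏ P ∈ m.toFinset, ((Ideal.absNorm P : ℕ) : ℝ) ^ m.count P :=
      Finset.prod_nonneg (fun P _ => pow_nonneg (Nat.cast_nonneg _) _)
    exact mul_le_mul_of_nonneg_right e2 e3
  have hS1 : (S.card : ℝ) ≤ ∏ P ∈ m.toFinset, (((m.count P : ℕ) : ℝ) + 1) := by
    exact_mod_cast hcard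
  have hB : (1 : ℝ) ≤ A ^ T.card := one_le_pow₀ hA1
  have hpow : (S.card : ℝ) ^ n ≤ (A ^ T.card * H) ^ n := by
    calc (S.card : ℝ) ^ n ≤ (∏ P ∈ m.toFinset, (((m.count P : ℕ) : ℝ) + 1)) ^ n := by gcongr
      _ ≤ A ^ T.card * ((Ideal.absNorm I : ℕ) : ℝ) := hprod
      _ ≤ A ^ T.card * H ^ n := by gcongr
      _ ≤ (A ^ T.card) ^ n * H ^ n := by
          have : A ^ T.card ≤ (A ^ T.card) ^ n := le_self_pow₀ hB hn
          have hH0 : (0 : ℝ) ≤ H ^ n := by positivity
          exact mul_le_mul_of_nonneg_right this hH0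
      _ = (A ^ T.card * H) ^ n := by rw [mul_pow]
  exact (pow_le_pow_iff_left₀ (by positivity) (by positivity) hn).1 hpow

end Pool.Agent.Lib.MPb0e841.NF
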