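import Mathlib

/-! MP_b0e841_co, number field lemmas: units of bounded height (Lemma U). -/

set_option autoImplicit false

namespace Pool.Agent.Lib.MPb0e841.NF

open NumberField NumberField.Units NumberField.Units.dirichletUnitTheorem Module

/-- `(1 + a t)^r ≤ C e^t` -/
lemma U_poly_exp (a : ℝ) (ha : 0 ≤ a) (r : ℕ) :
    ∃ C : ℝ, 1 ≤ C ∧ ∀ H : ℝ, 1 ≤ H → (1 + a * Real.log H) ^ r ≤ C * H := by
  have hr : (1 : ℝ) ≤ r.factorial := by exact_mod_cast Nat.one_le_iff_ne_zero.2 (Nat.factorial_ne_zero r)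
  refine ⟨(1 + a) ^ r * (r.factorial * Real.exp 1), ?_, ?_⟩
  · have h1 : (1 : ℝ) ≤ (1 + a) ^ r := one_le_pow₀ (by linarith)
    have h2 : (1 : ℝ) ≤ Real.exp 1 := Real.one_le_exp (by norm_num)
    have h3 : (1 : ℝ) ≤ r.factorial * Real.exp 1 := one_le_mul_of_one_le_of_one_le hr h2
    exact one_le_mul_of_one_le_of_one_le h1 h3
  · intro H hH
    have hl : 0 ≤ Real.log H := Real.log_nonneg hH
    have h1 : (1 + a * Real.log H) ^ r ≤ ((1 + a) * (1 + Real.log H)) ^ r := by
      apply pow_le_pow_left₀ (by positivity)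
      nlinarith
    have h2 : (1 + Real.log H) ^ r / r.factorial ≤ Real.exp (1 + Real.log H) :=
      Real.pow_div_factorial_le_exp _ (by linarith) r
    have h3 : (1 + Real.log H) ^ r ≤ r.factorial * (Real.exp 1 * H) := by
      rw [Real.exp_add, Real.exp_log (by linarith)] at h2
      rw [div_le_iff₀ (by positivity)] at h2
      linarith
    calc (1 + a * Real.log H) ^ r ≤ (1 + a) ^ r * (1 + Real.log H) ^ r := by rwa [← mul_pow]
      _ ≤ (1 + a) ^ r * (r.factorial * (Real.exp 1 * H)) :=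
        mul_le_mul_of_nonneg_left h3 (by positivity)
      _ = (1 + a) ^ r * (r.factorial * Real.exp 1) * H := by ring

open scoped Classical in
/-- the logarithmic embedding of a unit of bounded height -/
lemma U_log_le (K : Type) [Field K] [NumberField K] (n : ℕ) (H : ℝ) (hH : 1 ≤ H) (u : (𝓞 K)ˣ)
    (hu : ∀ φ : K →+* ℂ, ‖φ ((u : 𝓞 K) : K)‖ ≤ H ^ n) :
    ‖logEmbedding K (Additive.ofMul u)‖ ≤ Module.finrank ℚ K * (n * Real.log H) := by
  have hl : 0 ≤ Real.log H := Real.log_nonneg hH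
  have hN : 0 ≤ n * Real.log H := by positivity
  have hw : ∀ w : InfinitePlace K, Real.log (w (u : K)) ≤ n * Real.log H := by
    intro w
    have h1 : w ((u : 𝓞 K) : K) ≤ H ^ n := by
      rw [← InfinitePlace.norm_embedding_eq]
      exact hu _
    have h2 : 0 < w ((u : 𝓞 K) : K) := Units.pos_at_place _ _
    calc Real.log (w (u : K)) ≤ Real.log (H ^ n) := Real.log_le_log h2 h1
      _ = n * Real.log H := Real.log_pow _ _
  rw [pi_norm_le_iff_of_nonneg (by positivity)]
  intro w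
  rw [Real.norm_eq_abs, logEmbedding_component]
  have hsum := sum_mult_mul_log u
  have hm : (∑ w : InfinitePlace K, (InfinitePlace.mult w : ℝ)) = Module.finrank ℚ K := by
    exact_mod_cast InfinitePlace.sum_mult_eq (K := K)
  have h1 : (InfinitePlace.mult w.1 : ℝ) ≤ Module.finrank ℚ K := by
    rw [← hm]
    exact Finset.single_le_sum (f := fun w : InfinitePlace K => (InfinitePlace.mult w : ℝ))
      (fun i _ => by positivity) (Finset.mem_univ w.1)
  rw [abs_le]
  constructor
  · have h2 : ∑ v ∈ Finset.univ.erase w.1, (InfinitePlace.mult v : ℝ) * Real.log (v (u : K)) ≤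
        ∑ v ∈ Finset.univ.erase w.1, (InfinitePlace.mult v : ℝ) * (n * Real.log H) :=
      Finset.sum_le_sum fun v _ => mul_le_mul_of_nonneg_left (hw v) (by positivity)
    have h3 : ∑ v ∈ Finset.univ.erase w.1, (InfinitePlace.mult v : ℝ) * (n * Real.log H) ≤
        Module.finrank ℚ K * (n * Real.log H) := by
      rw [← hm, Finset.sum_mul]
      exact Finset.sum_le_sum_of_subset_of_nonneg (Finset.erase_subset _ _)
        fun v _ _ => by positivity
    have h4 := Finset.add_sum_erase Finset.univ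
      (fun v : InfinitePlace K => (InfinitePlace.mult v : ℝ) * Real.log (v (u : K)))
      (Finset.mem_univ w.1)
    rw [hsum] at h4
    linarith
  · calc (InfinitePlace.mult w.1 : ℝ) * Real.log (w.1 (u : K))
        ≤ (InfinitePlace.mult w.1 : ℝ) * (n * Real.log H) :=
          mul_le_mul_of_nonneg_left (hw _) (by positivity)
      _ ≤ Module.finrank ℚ K * (n * Real.log H) := mul_le_mul_of_nonneg_right h1 hN

open scoped Classical in
/-- the exponents of a unit on a fundamental system are linear in the logarithmic embedding -/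
lemma U_exponents (K : Type) [Field K] [NumberField K] :
    ∃ c : ℝ, 0 ≤ c ∧ ∀ u : (𝓞 K)ˣ, ∃ (ζ : torsion K) (e : Fin (Units.rank K) → ℤ),
      u = ζ * ∏ i, (fundSystem K i) ^ (e i) ∧
      ∀ i, |(e i : ℝ)| ≤ c * ‖logEmbedding K (Additive.ofMul u)‖ := by
  set B := (basisUnitLattice K).ofZLatticeBasis ℝ (unitLattice K) with hB
  refine ⟨‖(B.equivFunL : logSpace K →L[ℝ] (Fin (Units.rank K) → ℝ))‖, norm_nonneg _, fun u => ?_⟩
  obtain ⟨⟨ζ, e⟩, hu, -⟩ := exist_unique_eq_mul_prod K u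
  refine ⟨ζ, e, hu, fun i => ?_⟩
  have h1 : logEmbedding K (Additive.ofMul u) = ∑ j, (e j : ℝ) • B j := by
    have h2 : logEmbedding K (Additive.ofMul (ζ : (𝓞 K)ˣ)) = 0 := logEmbedding_eq_zero_iff.2 ζ.2
    have h3 : Additive.ofMul u = Additive.ofMul (ζ : (𝓞 K)ˣ) +
        ∑ j, (e j) • Additive.ofMul (fundSystem K j) := by
      conv_lhs => rw [hu]
      rw [ofMul_mul, ofMul_prod]
      rfl
    rw [h3, map_add, h2, zero_add, map_sum]
    refine Finset.sum_congr rfl fun j _ => ?_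
    rw [map_zsmul, logEmbedding_fundSystem, hB, Basis.ofZLatticeBasis_apply, Int.cast_smul_eq_zsmul]
  have h4 : B.equivFunL (logEmbedding K (Additive.ofMul u)) i = (e i : ℝ) := by
    rw [h1, map_sum, Finset.sum_apply, Finset.sum_eq_single i]
    · rw [map_smul, Pi.smul_apply]
      simp [Basis.equivFunL]
    · intro j _ hj
      rw [map_smul, Pi.smul_apply]
      simp [Basis.equivFunL, hj]
    · intro h
      exact absurd (Finset.mem_univ i) h
  rw [← h4, ← Real.norm_eq_abs]
  calc ‖B.equivFunL (logEmbedding K (Additive.ofMul u)) i‖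
      ≤ ‖B.equivFunL (logEmbedding K (Additive.ofMul u))‖ := norm_le_pi_norm _ i
    _ ≤ _ := ContinuousLinearMap.le_opNorm (B.equivFunL : logSpace K →L[ℝ] (Fin (Units.rank K) → ℝ)) _

/-- LEMMA U (units of bounded height). -/
theorem card_units_le (K : Type) [Field K] [NumberField K] (n : ℕ) (hn : n ≠ 0) :
    ∃ C : ℝ, 1 ≤ C ∧ ∀ H : ℝ, 1 ≤ H → ∀ S : Finset (𝓞 K)ˣ,
      (∀ u ∈ S, ∀ φ : K →+* ℂ, ‖φ ((u : 𝓞 K) : K)‖ ≤ H ^ n) → (S.card : ℝ) ≤ C * H := by
  classical
  obtain ⟨c, hc0, hc⟩ := U_exponents K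
  choose ζ e hu he using hc
  set d : ℝ := (Module.finrank ℚ K : ℝ) with hd
  set a : ℝ := 2 * (c * (d * n)) with ha
  have ha0 : 0 ≤ a := by positivity
  obtain ⟨C, hC1, hC⟩ := U_poly_exp a ha0 (Units.rank K)
  have : Fintype (torsion K) := Fintype.ofFinite _
  have hT : (1 : ℝ) ≤ Fintype.card (torsion K) := by exact_mod_cast Fintype.card_pos
  refine ⟨Fintype.card (torsion K) * C, one_le_mul_of_one_le_of_one_le hT hC1, fun H hH S hS => ?_⟩
  have hl : 0 ≤ Real.log H := Real.log_nonneg hH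
  set R : ℝ := c * (d * (n * Real.log H)) with hR
  have hR0 : 0 ≤ R := by positivity
  have hbd : ∀ u ∈ S, ∀ i, e u i ∈ Finset.Icc (-⌊R⌋) ⌊R⌋ := by
    intro u huS i
    have h1 : |(e u i : ℝ)| ≤ R := (he u i).trans
      (mul_le_mul_of_nonneg_left (U_log_le K n H hH u (hS u huS)) hc0)
    rw [abs_le] at h1
    rw [Finset.mem_Icc]
    constructor
    · have h2 : -(e u i) ≤ ⌊R⌋ := Int.le_floor.2 (by push_cast; linarith [h1.1])
      linarith
    · exact Int.le_floor.2 h1.2
  have hcard : S.card ≤ (Finset.univ (α := torsion K) ×ˢ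
      Fintype.piFinset (fun _ : Fin (Units.rank K) => Finset.Icc (-⌊R⌋) ⌊R⌋)).card := by
    apply Finset.card_le_card_of_injOn (fun u => (ζ u, e u))
    · intro u huS
      simp only [Finset.coe_product, Set.mem_prod, Finset.mem_coe, Finset.mem_univ, true_and,
        Fintype.mem_piFinset]
      exact fun i => hbd u huS i
    · intro u _ v _ huv
      have h1 : ζ u = ζ v := congrArg Prod.fst huv
      have h2 : e u = e v := congrArg Prod.snd huv
      rw [hu u, hu v, h1, h2]
  rw [Finset.card_product, Fintype.card_piFinset, Finset.prod_const, Finset.card_univ,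
    Finset.card_univ, Fintype.card_fin, Int.card_Icc] at hcard
  have hfl : 0 ≤ ⌊R⌋ := Int.floor_nonneg.2 hR0
  have h5 : (((⌊R⌋ + 1 - -⌊R⌋).toNat : ℕ) : ℝ) ≤ 1 + a * Real.log H := by
    have h6 : (((⌊R⌋ + 1 - -⌊R⌋).toNat : ℤ)) = 2 * ⌊R⌋ + 1 := by
      rw [Int.toNat_of_nonneg (by linarith)]
      ring
    have h7 : (((⌊R⌋ + 1 - -⌊R⌋).toNat : ℕ) : ℝ) = 2 * (⌊R⌋ : ℝ) + 1 := by exact_mod_cast h6
    rw [h7]
    have h8 := Int.floor_le R
    have h9 : a * Real.log H = 2 * R := by rw [ha, hR]; ring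
    linarith
  calc (S.card : ℝ) ≤ Fintype.card (torsion K) *
        (((⌊R⌋ + 1 - -⌊R⌋).toNat : ℕ) : ℝ) ^ (Units.rank K) := by exact_mod_cast hcard
    _ ≤ Fintype.card (torsion K) * (1 + a * Real.log H) ^ (Units.rank K) := by gcongr
    _ ≤ Fintype.card (torsion K) * (C * H) := by gcongr; exact hC H hH
    _ = Fintype.card (torsion K) * C * H := by ring

end Pool.Agent.Lib.MPb0e841.NF
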