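import Mathlib
import Pool.Agent.Lib.MP_b0e841_co.NF.I
import Pool.Agent.Lib.MP_b0e841_co.NF.U

/-! MP_b0e841_co, number field lemma F. -/

namespace Pool.Agent.Lib.MPb0e841.NF

open NumberField

/-- absolute norm of the principal ideal as a product over the embeddings -/
theorem absNorm_eq_prod (K : Type) [Field K] [NumberField K] (M : 𝓞 K) :
    ((Ideal.absNorm (Ideal.span ({M} : Set (𝓞 K))) : ℕ) : ℝ) =
      ∏ σ : K →ₐ[ℚ] ℂ, ‖σ (M : K)‖ := by
  have h1 := Algebra.norm_eq_prod_embeddings ℚ ℂ (M : K)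
  have h2 : ‖(algebraMap ℚ ℂ) (Algebra.norm ℚ (M : K))‖ = ∏ σ : K →ₐ[ℚ] ℂ, ‖σ (M : K)‖ := by
    rw [h1, norm_prod]
  rw [← h2, ← Algebra.coe_norm_int, Ideal.absNorm_span_singleton]
  simp only [Nat.cast_natAbs, eq_ratCast, Rat.cast_intCast, Int.cast_abs]
  rw [Complex.norm_intCast]

theorem card_factors_le (K : Type) [Field K] [NumberField K] (n : ℕ) (hn : n ≠ 0) :
    ∃ C : ℝ, 1 ≤ C ∧ ∀ H : ℝ, 1 ≤ H → ∀ M : 𝓞 K, M ≠ 0 → ∀ S : Finset (𝓞 K),
      (∀ y ∈ S, (∀ φ : K →+* ℂ, ‖φ (y : K)‖ ≤ H ^ n) ∧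
        ∃ z : 𝓞 K, y * z = M ∧ ∀ φ : K →+* ℂ, ‖φ (z : K)‖ ≤ H ^ n) →
      (S.card : ℝ) ≤ C * H := by
  classical
  set d := Module.finrank ℚ K with hd
  have hdpos : 0 < d := Module.finrank_pos
  have hcard : Fintype.card (K →ₐ[ℚ] ℂ) = d := AlgHom.card ℚ K ℂ
  have hnd : 4 * n * d ≠ 0 := by positivity
  obtain ⟨C1, hC1, hI⟩ := card_ideal_divisors_le K (4 * n * d) hnd
  obtain ⟨C2, hC2, hU⟩ := card_units_le K (4 * n * d) hnd
  refine ⟨C1 * C2, by nlinarith, fun H hH M hM S hS => ?_⟩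
  rcases S.eq_empty_or_nonempty with rfl | hSne
  · simp; positivity
  have hs1 : 1 ≤ Real.sqrt H := by
    rw [← Real.sqrt_one]; exact Real.sqrt_le_sqrt hH
  have hsq : (Real.sqrt H) ^ (4 * n * d) = H ^ (2 * n * d) := by
    have : 4 * n * d = 2 * (2 * n * d) := by ring
    rw [this, pow_mul, Real.sq_sqrt (by linarith)]
  have hMK : (M : K) ≠ 0 := by
    simpa using hM
  -- upper bound for all conjugates of M
  obtain ⟨y1, hy1⟩ := hSne
  have hMub : ∀ φ : K →+* ℂ, ‖φ (M : K)‖ ≤ H ^ (2 * n) := by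
    intro φ
    obtain ⟨hy, z, hz, hz'⟩ := hS y1 hy1
    rw [← hz]
    push_cast
    rw [map_mul, norm_mul]
    calc ‖φ (y1 : K)‖ * ‖φ (z : K)‖ ≤ H ^ n * H ^ n := by
          gcongr
          · exact hy φ
          · exact hz' φ
      _ = H ^ (2 * n) := by rw [← pow_add]; congr 1; ring
  have hnorm := absNorm_eq_prod K M
  have hN1 : (1 : ℝ) ≤ ((Ideal.absNorm (Ideal.span ({M} : Set (𝓞 K))) : ℕ) : ℝ) := by
    have : Ideal.absNorm (Ideal.span ({M} : Set (𝓞 K))) ≠ 0 := by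
      rw [Ne, Ideal.absNorm_eq_zero_iff, Ideal.span_singleton_eq_bot]
      exact hM
    exact_mod_cast Nat.one_le_iff_ne_zero.2 this
  have hNub : ((Ideal.absNorm (Ideal.span ({M} : Set (𝓞 K))) : ℕ) : ℝ) ≤
      (Real.sqrt H) ^ (4 * n * d) := by
    rw [hnorm, hsq]
    calc ∏ σ : K →ₐ[ℚ] ℂ, ‖σ (M : K)‖ ≤ ∏ _σ : K →ₐ[ℚ] ℂ, H ^ (2 * n) :=
          Finset.prod_le_prod (fun _ _ => norm_nonneg _) (fun σ _ => hMub σ.toRingHom)
      _ = H ^ (2 * n * d) := by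
          rw [Finset.prod_const, Finset.card_univ, hcard, ← pow_mul]
  -- lower bound for each conjugate of M
  have hMlb : ∀ φ : K →+* ℂ, 1 ≤ ‖φ (M : K)‖ * H ^ (2 * n * (d - 1)) := by
    intro φ
    let σ : K →ₐ[ℚ] ℂ := φ.toRatAlgHom
    have h1 : ∏ τ : K →ₐ[ℚ] ℂ, ‖τ (M : K)‖ =
        ‖σ (M : K)‖ * ∏ τ ∈ Finset.univ.erase σ, ‖τ (M : K)‖ :=
      (Finset.mul_prod_erase _ _ (Finset.mem_univ σ)).symm
    have h2 : ∏ τ ∈ Finset.univ.erase σ, ‖τ (M : K)‖ ≤ H ^ (2 * n * (d - 1)) := by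
      calc ∏ τ ∈ Finset.univ.erase σ, ‖τ (M : K)‖
          ≤ ∏ _τ ∈ Finset.univ.erase σ, H ^ (2 * n) :=
            Finset.prod_le_prod (fun _ _ => norm_nonneg _) (fun τ _ => hMub τ.toRingHom)
        _ = H ^ (2 * n * (d - 1)) := by
            rw [Finset.prod_const, Finset.card_erase_of_mem (Finset.mem_univ σ),
              Finset.card_univ, hcard, ← pow_mul]
    have h3 : ‖σ (M : K)‖ = ‖φ (M : K)‖ := rfl
    rw [hnorm, h1, h3] at hN1
    exact hN1.trans (mul_le_mul_of_nonneg_left h2 (norm_nonneg _))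
  -- map to ideals
  let f : 𝓞 K → Ideal (𝓞 K) := fun y => Ideal.span {y}
  have himage : ((S.image f).card : ℝ) ≤ C1 * Real.sqrt H := by
    refine hI _ hs1 (Ideal.span {M}) ?_ hNub (S.image f) ?_
    · rw [Ne, Ideal.span_singleton_eq_bot]; exact hM
    · intro J hJ
      obtain ⟨y, hy, rfl⟩ := Finset.mem_image.1 hJ
      obtain ⟨-, z, hz, -⟩ := hS y hy
      rw [Ideal.dvd_span_singleton]
      exact Ideal.mem_span_singleton.2 ⟨z, hz.symm⟩
  have hfib : ∀ J ∈ S.image f, ((S.filter (fun y => f y = J)).card : ℝ) ≤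
      C2 * Real.sqrt H := by
    intro J hJ
    obtain ⟨y0, hy0, rfl⟩ := Finset.mem_image.1 hJ
    obtain ⟨hy0b, z0, hz0, hz0b⟩ := hS y0 hy0
    have hy00 : y0 ≠ 0 := by
      rintro rfl
      rw [zero_mul] at hz0
      exact hM hz0.symm
    -- the unit
    have hu : ∀ y ∈ S.filter (fun y => f y = f y0), ∃ u : (𝓞 K)ˣ, y0 * u = y := by
      intro y hy
      have : Associated y0 y := by
        rw [← Ideal.span_singleton_eq_span_singleton]
        exact (Finset.mem_filter.1 hy).2.symm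
      exact this
    choose! u hu' using hu
    have hinj : Set.InjOn u (S.filter (fun y => f y = f y0) : Finset (𝓞 K)) := by
      intro a ha b hb hab
      rw [← hu' a ha, ← hu' b hb, hab]
    rw [← Finset.card_image_of_injOn hinj]
    refine hU _ hs1 _ ?_
    intro v hv φ
    obtain ⟨y, hy, rfl⟩ := Finset.mem_image.1 hv
    have hyS : y ∈ S := (Finset.mem_filter.1 hy).1
    have e1 : φ (y0 : K) * φ ((u y : 𝓞 K) : K) = φ (y : K) := by
      rw [← map_mul]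
      congr 1
      have := congrArg (fun t : 𝓞 K => (t : K)) (hu' y hy)
      simpa using this
    have e2 : φ (y0 : K) * φ (z0 : K) = φ (M : K) := by
      rw [← map_mul]
      congr 1
      have := congrArg (fun t : 𝓞 K => (t : K)) hz0
      simpa using this
    have e3 : ‖φ (y0 : K)‖ * ‖φ ((u y : 𝓞 K) : K)‖ = ‖φ (y : K)‖ := by
      rw [← norm_mul, e1]
    have e4 : ‖φ (y0 : K)‖ * ‖φ (z0 : K)‖ = ‖φ (M : K)‖ := by
      rw [← norm_mul, e2]
    have hyb := (hS y hyS).1 φ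
    have hz0' := hz0b φ
    have hlb := hMlb φ
    rw [hsq]
    -- ‖u‖ ≤ ‖u‖ * ‖M‖ * H^.. = ‖y‖ ‖z0‖ H^..
    have hu0 : 0 ≤ ‖φ ((u y : 𝓞 K) : K)‖ := norm_nonneg _
    calc ‖φ ((u y : 𝓞 K) : K)‖
        ≤ ‖φ ((u y : 𝓞 K) : K)‖ * (‖φ (M : K)‖ * H ^ (2 * n * (d - 1))) :=
          le_mul_of_one_le_right hu0 hlb
      _ = (‖φ (y : K)‖ * ‖φ (z0 : K)‖) * H ^ (2 * n * (d - 1)) := by
          rw [← e4, ← e3]; ring
      _ ≤ (H ^ n * H ^ n) * H ^ (2 * n * (d - 1)) := by gcongr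
      _ = H ^ (2 * n * d) := by
          rw [← pow_add, ← pow_add]
          congr 1
          obtain ⟨e, he⟩ : ∃ e, d = e + 1 := ⟨d - 1, by omega⟩
          rw [he]
          simp only [Nat.add_sub_cancel]
          ring
  have hsum : (S.card : ℝ) = ∑ J ∈ S.image f, ((S.filter (fun y => f y = J)).card : ℝ) := by
    rw [Finset.card_eq_sum_card_image f S]
    push_cast
    rfl
  rw [hsum]
  calc ∑ J ∈ S.image f, ((S.filter (fun y => f y = J)).card : ℝ)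
      ≤ ∑ _J ∈ S.image f, C2 * Real.sqrt H := Finset.sum_le_sum hfib
    _ = (S.image f).card * (C2 * Real.sqrt H) := by rw [Finset.sum_const, nsmul_eq_mul]
    _ ≤ (C1 * Real.sqrt H) * (C2 * Real.sqrt H) := by
        gcongr
    _ = C1 * C2 * (Real.sqrt H * Real.sqrt H) := by ring
    _ = C1 * C2 * H := by rw [Real.mul_self_sqrt (by linarith)]

end Pool.Agent.Lib.MPb0e841.NF
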