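import Mathlib

/-!
Sides of triangles with a fixed circumradius whose vertices are algebraic integers of a number
field.
-/

namespace Pool.Agent.Lib.MPb0e841.NF

open NumberField Finset

variable (K : Type) [Field K] [NumberField K]

/-- `v` is a side of a triangle `0, v, w`; `v', w'` are the complex conjugates, `R2` is the squared
circumradius, all sizes are at most `h`. -/
def NSide (φ0 : K →+* ℂ) (R2 : ℂ) (h : ℝ) (v v' w w' : 𝓞 K) : Prop :=
  v ≠ 0 ∧ v' ≠ 0 ∧ w ≠ 0 ∧ w' ≠ 0 ∧ w - v ≠ 0 ∧ w' - v' ≠ 0 ∧ v * w' - v' * w ≠ 0 ∧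
  R2 * (φ0 ((v * w' - v' * w : 𝓞 K) : K)) ^ 2
    = - φ0 ((v * v' * (w * w') * ((w - v) * (w' - v')) : 𝓞 K) : K) ∧
  ∀ φ : K →+* ℂ, ‖φ (v : K)‖ ≤ h ∧ ‖φ (v' : K)‖ ≤ h ∧ ‖φ (w : K)‖ ≤ h ∧ ‖φ (w' : K)‖ ≤ h ∧
    ‖φ ((w - v : 𝓞 K) : K)‖ ≤ h ∧ ‖φ ((w' - v' : 𝓞 K) : K)‖ ≤ h

lemma root_bound {y S A : ℂ} (h : y ^ 2 - S * y + A ^ 2 = 0) : ‖y‖ ≤ ‖S‖ + ‖A‖ := by
  have h1 : y ^ 2 = S * y - A ^ 2 := by linear_combination h
  have h2 : ‖y‖ ^ 2 ≤ ‖S‖ * ‖y‖ + ‖A‖ ^ 2 := by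
    calc ‖y‖ ^ 2 = ‖y ^ 2‖ := (norm_pow _ _).symm
      _ = ‖S * y - A ^ 2‖ := by rw [h1]
      _ ≤ ‖S * y‖ + ‖A ^ 2‖ := norm_sub_le _ _
      _ = ‖S‖ * ‖y‖ + ‖A‖ ^ 2 := by rw [norm_mul, norm_pow]
  by_contra hlt
  push Not at hlt
  nlinarith [norm_nonneg y, norm_nonneg S, norm_nonneg A]

lemma card_sides_nf (φ0 : K →+* ℂ) {n : ℕ} {C H h : ℝ} (hC : 1 ≤ C) (hH : 1 ≤ H) (hh : 1 ≤ h)
    (hhH : 16 * h ^ 6 ≤ H ^ n)
    (hF : ∀ M : 𝓞 K, M ≠ 0 → ∀ S : Finset (𝓞 K),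
      (∀ y ∈ S, (∀ φ : K →+* ℂ, ‖φ (y : K)‖ ≤ H ^ n) ∧
        ∃ z : 𝓞 K, y * z = M ∧ ∀ φ : K →+* ℂ, ‖φ (z : K)‖ ≤ H ^ n) → (S.card : ℝ) ≤ C * H)
    (R2 : ℂ) (V : Finset (𝓞 K)) (hV : ∀ v ∈ V, ∃ v' w w', NSide K φ0 R2 h v v' w w') :
    (V.card : ℝ) ≤ (C * H) * (C * H) := by
  classical
  have hCH : 0 ≤ C * H := by positivity
  rcases V.eq_empty_or_nonempty with hE | ⟨v0, hv0⟩
  · rw [hE]; simp; positivity
  choose! c w c2 hs using hV
  have hs0 := hs v0 hv0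
  set v0' := c v0
  set w0 := w v0
  set w0' := c2 v0
  obtain ⟨n1, n2, n3, n4, n5, n6, n7, rel0, bd0⟩ := hs0
  set A : 𝓞 K := v0 * v0' * (w0 * w0') * ((w0 - v0) * (w0' - v0')) with hA
  set B : 𝓞 K := -(v0 * w0' - v0' * w0) ^ 2 with hB
  have hA0 : A ≠ 0 := mul_ne_zero (mul_ne_zero (mul_ne_zero n1 n2) (mul_ne_zero n3 n4))
    (mul_ne_zero n5 n6)
  have hB0 : B ≠ 0 := neg_ne_zero.mpr (pow_ne_zero 2 n7)
  -- the relation in the number field
  have rel : ∀ v ∈ V, A * (-(v * c2 v - c v * w v) ^ 2)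
      = B * (v * c v * (w v * c2 v) * ((w v - v) * (c2 v - c v))) := by
    intro v hv
    obtain ⟨m1, m2, m3, m4, m5, m6, m7, rel1, bd1⟩ := hs v hv
    have inj : Function.Injective (fun x : 𝓞 K => φ0 (x : K)) := by
      intro x y hxy
      have : (x : K) = (y : K) := φ0.injective hxy
      exact RingOfIntegers.ext this
    apply inj
    simp only
    have e1 : φ0 ((A * (-(v * c2 v - c v * w v) ^ 2) : 𝓞 K) : K)
        = φ0 (A : K) * (-(φ0 ((v * c2 v - c v * w v : 𝓞 K) : K)) ^ 2) := by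
      simp [map_mul, map_neg, map_pow]
    have e2 : φ0 ((B * (v * c v * (w v * c2 v) * ((w v - v) * (c2 v - c v))) : 𝓞 K) : K)
        = φ0 (B : K) * φ0 ((v * c v * (w v * c2 v) * ((w v - v) * (c2 v - c v)) : 𝓞 K) : K) := by
      simp [map_mul]
    have e3 : φ0 (B : K) = -(φ0 ((v0 * w0' - v0' * w0 : 𝓞 K) : K)) ^ 2 := by
      rw [hB]; simp [map_neg, map_pow]
    rw [e1, e2, e3]
    have r0 : φ0 (A : K) = - (R2 * (φ0 ((v0 * w0' - v0' * w0 : 𝓞 K) : K)) ^ 2) := by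
      rw [rel0, neg_neg]
    have r1 : φ0 ((v * c v * (w v * c2 v) * ((w v - v) * (c2 v - c v)) : 𝓞 K) : K)
        = - (R2 * (φ0 ((v * c2 v - c v * w v : 𝓞 K) : K)) ^ 2) := by
      rw [rel1, neg_neg]
    rw [r0, r1]
    ring
  -- the element y
  have key : ∀ v ∈ V, ∃ y z : 𝓞 K, y * z = A ^ 2 ∧ y + z = A + A - B * (v * c v) ∧
      (∀ φ : K →+* ℂ, ‖φ (y : K)‖ ≤ H ^ n) ∧ (∀ φ : K →+* ℂ, ‖φ (z : K)‖ ≤ H ^ n) := by
    intro v hv
    obtain ⟨m1, m2, m3, m4, m5, m6, m7, rel1, bd1⟩ := hs v hv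
    have hr := rel v hv
    set S : 𝓞 K := A + A - B * (v * c v) with hS
    -- elements of K
    set a : K := (A : K) with ha
    have q1 : (w v : K) ≠ 0 := RingOfIntegers.coe_ne_zero_iff.mpr m3
    have q2 : (c2 v : K) ≠ 0 := RingOfIntegers.coe_ne_zero_iff.mpr m4
    have q3 : ((w v : K) - (v : K)) ≠ 0 := by
      have := RingOfIntegers.coe_ne_zero_iff.mpr m5
      simpa using this
    have q4 : ((c2 v : K) - (c v : K)) ≠ 0 := by
      have := RingOfIntegers.coe_ne_zero_iff.mpr m6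
      simpa using this
    set y : K := a * ((c2 v : K) * ((w v : K) - v)) / ((w v : K) * ((c2 v : K) - c v)) with hy
    set z : K := a * ((w v : K) * ((c2 v : K) - c v)) / ((c2 v : K) * ((w v : K) - v)) with hz
    have hyz : y * z = a ^ 2 := by
      rw [hy, hz]; field_simp
    have hrK : a * (-((v : K) * (c2 v : K) - (c v : K) * (w v : K)) ^ 2)
        = (B : K) * ((v : K) * (c v : K) * ((w v : K) * (c2 v : K))
          * (((w v : K) - v) * ((c2 v : K) - c v))) := by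
      have := congrArg (fun x : 𝓞 K => (x : K)) hr
      simpa [map_mul, map_neg, map_pow, map_sub] using this
    have hsum : y + z = (S : K) := by
      have e1 : (S : K) = a + a - (B : K) * ((v : K) * (c v : K)) := by
        rw [hS]; simp [ha, map_mul, map_sub, map_add]
      rw [e1, hy, hz]
      field_simp
      linear_combination (-1 : K) * hrK
    have hyroot : y ^ 2 - (S : K) * y + a ^ 2 = 0 := by
      rw [← hsum, ← hyz]; ring
    have hzroot : z ^ 2 - (S : K) * z + a ^ 2 = 0 := by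
      rw [← hsum, ← hyz]; ring
    have integ : ∀ u : K, u ^ 2 - (S : K) * u + a ^ 2 = 0 → IsIntegral ℤ u := by
      intro u hu
      have h1 : IsIntegral (𝓞 K) u := by
        refine ⟨Polynomial.X ^ 2 - Polynomial.C S * Polynomial.X + Polynomial.C (A ^ 2), ?_, ?_⟩
        · monicity!
        · simp only [Polynomial.eval₂_add, Polynomial.eval₂_sub, Polynomial.eval₂_mul,
            Polynomial.eval₂_pow, Polynomial.eval₂_X, Polynomial.eval₂_C, map_pow]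
          exact hu
      exact isIntegral_trans u h1
    obtain ⟨y', hy'⟩ : ∃ y' : 𝓞 K, (y' : K) = y := ⟨⟨y, integ y hyroot⟩, rfl⟩
    obtain ⟨z', hz'⟩ : ∃ z' : 𝓞 K, (z' : K) = z := ⟨⟨z, integ z hzroot⟩, rfl⟩
    have hbA : ∀ φ : K →+* ℂ, ‖φ (A : K)‖ ≤ h ^ 6 := by
      intro φ
      obtain ⟨b1, b2, b3, b4, b5, b6⟩ := bd0 φ
      have e1 : φ (A : K) = φ (v0 : K) * φ (v0' : K) * (φ (w0 : K) * φ (w0' : K))
          * (φ ((w0 - v0 : 𝓞 K) : K) * φ ((w0' - v0' : 𝓞 K) : K)) := by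
        rw [hA]; simp [map_mul]
      rw [e1, norm_mul, norm_mul, norm_mul, norm_mul, norm_mul]
      calc ‖φ (v0 : K)‖ * ‖φ (v0' : K)‖ * (‖φ (w0 : K)‖ * ‖φ (w0' : K)‖)
          * (‖φ ((w0 - v0 : 𝓞 K) : K)‖ * ‖φ ((w0' - v0' : 𝓞 K) : K)‖)
          ≤ h * h * (h * h) * (h * h) := by gcongr
        _ = h ^ 6 := by ring
    have hbB : ∀ φ : K →+* ℂ, ‖φ (B : K)‖ ≤ 4 * h ^ 4 := by
      intro φ
      obtain ⟨b1, b2, b3, b4, b5, b6⟩ := bd0 φ
      have e1 : φ (B : K) = -(φ (v0 : K) * φ (w0' : K) - φ (v0' : K) * φ (w0 : K)) ^ 2 := by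
        rw [hB]; simp [map_mul, map_sub, map_pow, map_neg]
      rw [e1, norm_neg, norm_pow]
      have e2 : ‖φ (v0 : K) * φ (w0' : K) - φ (v0' : K) * φ (w0 : K)‖ ≤ 2 * h ^ 2 := by
        calc ‖φ (v0 : K) * φ (w0' : K) - φ (v0' : K) * φ (w0 : K)‖
            ≤ ‖φ (v0 : K) * φ (w0' : K)‖ + ‖φ (v0' : K) * φ (w0 : K)‖ := norm_sub_le _ _
          _ = ‖φ (v0 : K)‖ * ‖φ (w0' : K)‖ + ‖φ (v0' : K)‖ * ‖φ (w0 : K)‖ := by
              rw [norm_mul, norm_mul]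
          _ ≤ h * h + h * h := by gcongr
          _ = 2 * h ^ 2 := by ring
      calc ‖φ (v0 : K) * φ (w0' : K) - φ (v0' : K) * φ (w0 : K)‖ ^ 2 ≤ (2 * h ^ 2) ^ 2 :=
            pow_le_pow_left₀ (norm_nonneg _) e2 2
        _ = 4 * h ^ 4 := by ring
    have hbS : ∀ φ : K →+* ℂ, ‖φ (S : K)‖ ≤ 6 * h ^ 6 := by
      intro φ
      obtain ⟨b1, b2, -⟩ := bd1 φ
      have e1 : φ (S : K) = 2 * φ (A : K) - φ (B : K) * (φ (v : K) * φ (c v : K)) := by
        rw [hS, two_mul]; simp [map_mul, map_sub, map_add]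
      rw [e1]
      calc ‖2 * φ (A : K) - φ (B : K) * (φ (v : K) * φ (c v : K))‖
          ≤ ‖2 * φ (A : K)‖ + ‖φ (B : K) * (φ (v : K) * φ (c v : K))‖ := norm_sub_le _ _
        _ = 2 * ‖φ (A : K)‖ + ‖φ (B : K)‖ * (‖φ (v : K)‖ * ‖φ (c v : K)‖) := by
            rw [norm_mul, norm_mul, norm_mul]; norm_num
        _ ≤ 2 * h ^ 6 + (4 * h ^ 4) * (h * h) := by
            gcongr
            · exact hbA φ
            · exact hbB φ
        _ = 6 * h ^ 6 := by ring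
    have size : ∀ (u : K), u ^ 2 - (S : K) * u + a ^ 2 = 0 → ∀ φ : K →+* ℂ, ‖φ u‖ ≤ H ^ n := by
      intro u hu φ
      have h1 : (φ u) ^ 2 - φ (S : K) * φ u + (φ (A : K)) ^ 2 = 0 := by
        have := congrArg φ hu
        simpa [map_mul, map_sub, map_add, map_pow] using this
      have h2 := root_bound h1
      have h3 := hbA φ
      have h4 := hbS φ
      have h5 : (0 : ℝ) ≤ h ^ 6 := by positivity
      linarith
    refine ⟨y', z', ?_, ?_, ?_, ?_⟩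
    · apply RingOfIntegers.ext
      have h1 : algebraMap (𝓞 K) K (y' * z') = algebraMap (𝓞 K) K (A ^ 2) := by
        rw [map_mul, map_pow]
        change (y' : K) * (z' : K) = a ^ 2
        rw [hy', hz', hyz]
      exact h1
    · apply RingOfIntegers.ext
      have h1 : algebraMap (𝓞 K) K (y' + z') = algebraMap (𝓞 K) K S := by
        rw [map_add]
        change (y' : K) + (z' : K) = (S : K)
        rw [hy', hz', hsum]
      exact h1
    · rw [hy']; exact size y hyroot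
    · rw [hz']; exact size z hzroot
  choose! Y Z hYZ using key
  have hhn : h ≤ H ^ n := by
    have h1 : h ≤ h ^ 6 := le_self_pow₀ hh (by norm_num)
    have h2 : (0 : ℝ) ≤ h ^ 6 := by positivity
    linarith
  have himg : ((V.image Y).card : ℝ) ≤ C * H := by
    apply hF (A ^ 2) (pow_ne_zero 2 hA0)
    intro y hy
    rw [mem_image] at hy
    obtain ⟨v, hv, rfl⟩ := hy
    obtain ⟨e1, -, e3, e4⟩ := hYZ v hv
    exact ⟨e3, Z v, e1, e4⟩
  have hfib : ∀ y ∈ V.image Y, (V.filter (fun v => Y v = y)).card ≤ ⌊C * H⌋₊ := by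
    intro y hy
    apply Nat.le_floor
    rw [mem_image] at hy
    obtain ⟨v1, hv1, rfl⟩ := hy
    obtain ⟨e1, e2, -, -⟩ := hYZ v1 hv1
    obtain ⟨m1, m2, -⟩ := hs v1 hv1
    apply hF (v1 * c v1) (mul_ne_zero m1 m2)
    intro v hv
    rw [mem_filter] at hv
    obtain ⟨hvV, hvy⟩ := hv
    obtain ⟨f1, f2, -, -⟩ := hYZ v hvV
    obtain ⟨-, -, -, -, -, -, -, -, bd1⟩ := hs v hvV
    have hY0 : Y v1 ≠ 0 := by
      intro h0
      rw [h0, zero_mul] at e1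
      exact pow_ne_zero 2 hA0 e1.symm
    have hZ : Z v = Z v1 := by
      rw [hvy] at f1
      exact mul_left_cancel₀ hY0 (f1.trans e1.symm)
    have hm : v * c v = v1 * c v1 := by
      rw [hvy, hZ, e2] at f2
      apply mul_left_cancel₀ hB0
      linear_combination f2
    refine ⟨fun φ => ((bd1 φ).1).trans hhn, c v, hm, fun φ => ((bd1 φ).2.1).trans hhn⟩
  have hcard := Finset.card_le_mul_card_image_of_maps_to (s := V) (t := V.image Y) (f := Y)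
    (fun v hv => mem_image_of_mem Y hv) ⌊C * H⌋₊ hfib
  calc (V.card : ℝ) ≤ (⌊C * H⌋₊ : ℝ) * ((V.image Y).card : ℝ) := by exact_mod_cast hcard
    _ ≤ (C * H) * (C * H) := by
        apply mul_le_mul (Nat.floor_le hCH) himg (by positivity) hCH

end Pool.Agent.Lib.MPb0e841.NF
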