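import Mathlib
import Pool.Agent.Lib.MP_b0e841_co.NF.Sides

/-!
The number field of a finite family of algebraic numbers, and the complex geometry.
-/

namespace Pool.Agent.Lib.MPb0e841.NF

open NumberField Finset

/-- A common denominator. -/
lemma exists_den {k : ℕ} (e : Fin k → ℂ) (he : ∀ i, IsAlgebraic ℚ (e i)) :
    ∃ D : ℤ, D ≠ 0 ∧ ∀ i, IsIntegral ℤ ((D : ℂ) * e i) := by
  have h1 : ∀ i, ∃ y : ℤ, y ≠ 0 ∧ IsIntegral ℤ ((y : ℂ) * e i) := by
    intro i
    have h2 : IsAlgebraic ℤ (e i) := (IsFractionRing.isAlgebraic_iff ℤ ℚ ℂ).mpr (he i)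
    obtain ⟨y, hy, hi⟩ := h2.exists_integral_multiple
    exact ⟨y, hy, by simpa [zsmul_eq_mul] using hi⟩
  choose d hd hdi using h1
  refine ⟨∏ i, d i, Finset.prod_ne_zero_iff.mpr (fun i _ => hd i), fun i => ?_⟩
  have h3 : ((∏ i, d i : ℤ) : ℂ) * e i
      = ((∏ j ∈ Finset.univ.erase i, d j : ℤ) : ℂ) * ((d i : ℂ) * e i) := by
    rw [← Finset.prod_erase_mul Finset.univ d (Finset.mem_univ i)]
    push_cast
    ring
  rw [h3]
  exact IsIntegral.mul (isIntegral_algebraMap (R := ℤ) (A := ℂ)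
    (x := (∏ j ∈ Finset.univ.erase i, d j : ℤ))) (hdi i)

/-- A number field containing given algebraic integers and their complex conjugates. -/
lemma exists_field {k : ℕ} (E : Fin k → ℂ) (hE : ∀ i, IsIntegral ℤ (E i)) :
    ∃ (K : Type) (_ : Field K) (_ : NumberField K) (φ0 : K →+* ℂ) (g g' : Fin k → 𝓞 K),
      (∀ i, φ0 (g i : K) = E i) ∧ (∀ i, φ0 (g' i : K) = (starRingEnd ℂ) (E i)) := by
  have hE' : ∀ i, IsIntegral ℤ ((starRingEnd ℂ) (E i)) := fun i =>
    (hE i).map (starRingEnd ℂ).toIntAlgHom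
  set S : Set ℂ := Set.range E ∪ Set.range (fun i => (starRingEnd ℂ) (E i)) with hS
  have hfin : Finite S := by
    rw [hS]
    exact Set.Finite.to_subtype ((Set.finite_range _).union (Set.finite_range _))
  set L := IntermediateField.adjoin ℚ S with hL
  have hfd : FiniteDimensional ℚ L := by
    apply IntermediateField.finiteDimensional_adjoin
    rintro x (⟨i, rfl⟩ | ⟨i, rfl⟩)
    · exact (hE i).tower_top
    · exact (hE' i).tower_top
  have hnf : NumberField L := { to_charZero := inferInstance, to_finiteDimensional := hfd }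
  have memL : ∀ x ∈ S, x ∈ L := fun x hx => IntermediateField.subset_adjoin ℚ S hx
  have hint : ∀ (x : L), IsIntegral ℤ (x : ℂ) → IsIntegral ℤ x := by
    intro x hx
    exact (isIntegral_algebraMap_iff (R := ℤ) (A := L) (B := ℂ)
      (algebraMap L ℂ).injective).mp hx
  refine ⟨L, inferInstance, hnf, algebraMap L ℂ,
    fun i => ⟨⟨E i, memL _ (Or.inl ⟨i, rfl⟩)⟩, hint _ (hE i)⟩,
    fun i => ⟨⟨(starRingEnd ℂ) (E i), memL _ (Or.inr ⟨i, rfl⟩)⟩, hint _ (hE' i)⟩, ?_, ?_⟩
  · intro i; rfl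
  · intro i; rfl

/-- Circumradius identity, complex form. -/
lemma circumC {V V' W W' c c' R : ℂ} (hc : c * c' = R) (hv : (V - c) * (V' - c') = R)
    (hw : (W - c) * (W' - c') = R) :
    R * (V * W' - V' * W) ^ 2 = -(V * V' * (W * W') * ((W - V) * (W' - V'))) := by
  have e1 : c' * (V * W' - V' * W) = V' * W' * (V - W) := by
    linear_combination (-W') * hv + V' * hw + (W' - V') * hc
  have e2 : c * (V * W' - V' * W) = -(V * W * (V' - W')) := by
    linear_combination W * hv - V * hw + (V - W) * hc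
  rw [← hc]
  linear_combination (c * (V * W' - V' * W)) * e1 + (V' * W' * (V - W)) * e2

end Pool.Agent.Lib.MPb0e841.NF
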