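import Mathlib
import Pool.Agent.Lib.MP_b0e841_co.NF.Field
import Pool.Agent.Lib.MP_b0e841_co.NF.F

/-!
Unit circles through three points of a section of a finitely generated group with algebraic
generators.
-/

namespace Pool.Agent.Lib.MPb0e841.NF

open NumberField Finset

/-- The combination `∑ x_i g_i`. -/
noncomputable def vec {K : Type} [Field K] [NumberField K] {k : ℕ} (g : Fin k → 𝓞 K)
    (x : Fin k → ℤ) : 𝓞 K := ∑ i, (x i : 𝓞 K) * g i

lemma vec_sub {K : Type} [Field K] [NumberField K] {k : ℕ} (g : Fin k → 𝓞 K)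
    (x y : Fin k → ℤ) : vec g (x - y) = vec g x - vec g y := by
  unfold vec
  rw [← Finset.sum_sub_distrib]
  apply Finset.sum_congr rfl
  intro i _
  simp only [Pi.sub_apply]
  push_cast
  ring

lemma map_vec {K : Type} [Field K] [NumberField K] {k : ℕ} (g : Fin k → 𝓞 K)
    (x : Fin k → ℤ) (φ : K →+* ℂ) :
    φ (vec g x : K) = ∑ i, (x i : ℂ) * φ (g i : K) := by
  unfold vec
  have : ((∑ i, (x i : 𝓞 K) * g i : 𝓞 K) : K) = ∑ i, (x i : K) * (g i : K) := by
    simp [map_sum, map_mul]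
  rw [this, map_sum]
  simp [map_mul]

lemma norm_vec_le {K : Type} [Field K] [NumberField K] {k : ℕ} (g : Fin k → 𝓞 K) :
    ∃ B : ℝ, 1 ≤ B ∧ ∀ (m : ℝ) (x : Fin k → ℤ), 0 ≤ m → (∀ i, ((|x i| : ℤ) : ℝ) ≤ m) →
      ∀ φ : K →+* ℂ, ‖φ (vec g x : K)‖ ≤ m * B := by
  classical
  refine ⟨1 + ∑ i, ∑ φ : K →+* ℂ, ‖φ (g i : K)‖, ?_, ?_⟩
  · have : 0 ≤ ∑ i, ∑ φ : K →+* ℂ, ‖φ (g i : K)‖ :=
      Finset.sum_nonneg (fun i _ => Finset.sum_nonneg (fun φ _ => norm_nonneg _))
    linarith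
  · intro m x hm hx φ
    rw [map_vec]
    calc ‖∑ i, (x i : ℂ) * φ (g i : K)‖ ≤ ∑ i, ‖(x i : ℂ) * φ (g i : K)‖ := norm_sum_le _ _
      _ ≤ ∑ i, m * ∑ φ : K →+* ℂ, ‖φ (g i : K)‖ := by
          apply Finset.sum_le_sum
          intro i _
          rw [norm_mul]
          have h1 : ‖(x i : ℂ)‖ ≤ m := by
            have h2 : ‖(x i : ℂ)‖ = ((|x i| : ℤ) : ℝ) := by
              rw [Complex.norm_intCast]; push_cast; rfl
            rw [h2]; exact hx i
          have h3 : ‖φ (g i : K)‖ ≤ ∑ φ : K →+* ℂ, ‖φ (g i : K)‖ :=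
            Finset.single_le_sum (f := fun φ : K →+* ℂ => ‖φ (g i : K)‖)
              (fun φ _ => norm_nonneg _) (Finset.mem_univ φ)
          exact mul_le_mul h1 h3 (norm_nonneg _) hm
      _ = m * ∑ i, ∑ φ : K →+* ℂ, ‖φ (g i : K)‖ := by rw [Finset.mul_sum]
      _ ≤ m * (1 + ∑ i, ∑ φ : K →+* ℂ, ‖φ (g i : K)‖) := by
          apply mul_le_mul_of_nonneg_left _ hm
          linarith

lemma dist_one_mul {p z : ℂ} (h : dist p z = 1) :
    (p - z) * ((starRingEnd ℂ) p - (starRingEnd ℂ) z) = 1 := by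
  rw [← map_sub, Complex.mul_conj, Complex.normSq_eq_norm_sq, ← dist_eq_norm, h]
  simp

/-- Three distinct points of a progression on a unit circle give a side. -/
lemma side_of_three {K : Type} [Field K] [NumberField K] {k : ℕ} {φ0 : K →+* ℂ}
    {g g' : Fin k → 𝓞 K} (hg : ∀ i, φ0 (g' i : K) = (starRingEnd ℂ) (φ0 (g i : K)))
    {B B' m : ℝ} (hm : 0 ≤ m)
    (hB : ∀ (m : ℝ) (x : Fin k → ℤ), 0 ≤ m → (∀ i, ((|x i| : ℤ) : ℝ) ≤ m) →
      ∀ φ : K →+* ℂ, ‖φ (vec g x : K)‖ ≤ m * B)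
    (hB' : ∀ (m : ℝ) (x : Fin k → ℤ), 0 ≤ m → (∀ i, ((|x i| : ℤ) : ℝ) ≤ m) →
      ∀ φ : K →+* ℂ, ‖φ (vec g' x : K)‖ ≤ m * B')
    {lam p z : ℂ} {x y : Fin k → ℤ} (hx : ∀ i, ((|x i| : ℤ) : ℝ) ≤ m)
    (hy : ∀ i, ((|y i| : ℤ) : ℝ) ≤ m) (hyx : ∀ i, ((|y i - x i| : ℤ) : ℝ) ≤ m)
    (n1 : p + lam * φ0 (vec g x : K) ≠ p) (n2 : p + lam * φ0 (vec g y : K) ≠ p)
    (n3 : p + lam * φ0 (vec g x : K) ≠ p + lam * φ0 (vec g y : K))
    (d0 : dist p z = 1) (d1 : dist (p + lam * φ0 (vec g x : K)) z = 1)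
    (d2 : dist (p + lam * φ0 (vec g y : K)) z = 1) :
    NSide K φ0 (1 / (lam * (starRingEnd ℂ) lam)) (m * max B B') (vec g x) (vec g' x)
      (vec g y) (vec g' y) := by
  have conj_vec : ∀ x : Fin k → ℤ, φ0 (vec g' x : K) = (starRingEnd ℂ) (φ0 (vec g x : K)) := by
    intro x
    rw [map_vec, map_vec, map_sum]
    apply Finset.sum_congr rfl
    intro i _
    rw [map_mul, hg]
    simp
  have hlam : lam ≠ 0 := by
    rintro rfl
    apply n1
    simp
  have hlam' : (starRingEnd ℂ) lam ≠ 0 := by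
    simpa using hlam
  set V := φ0 (vec g x : K) with hV
  set W := φ0 (vec g y : K) with hW
  have hV0 : V ≠ 0 := by
    intro h
    apply n1
    rw [h]; simp
  have hW0 : W ≠ 0 := by
    intro h
    apply n2
    rw [h]; simp
  have hVW : W - V ≠ 0 := by
    intro h
    apply n3
    have : W = V := sub_eq_zero.mp h
    rw [this]
  have toO : ∀ u : 𝓞 K, φ0 (u : K) ≠ 0 → u ≠ 0 := by
    rintro u hu rfl
    apply hu
    simp
  have c1 : φ0 (vec g' x : K) = (starRingEnd ℂ) V := conj_vec x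
  have c2 : φ0 (vec g' y : K) = (starRingEnd ℂ) W := conj_vec y
  have s1 : φ0 ((vec g y - vec g x : 𝓞 K) : K) = W - V := by
    simp [map_sub, hV, hW]
  have s2 : φ0 ((vec g' y - vec g' x : 𝓞 K) : K) = (starRingEnd ℂ) W - (starRingEnd ℂ) V := by
    rw [← c1, ← c2]; simp [map_sub]
  have s3 : φ0 ((vec g x * vec g' y - vec g' x * vec g y : 𝓞 K) : K)
      = V * (starRingEnd ℂ) W - (starRingEnd ℂ) V * W := by
    rw [← c1, ← c2]; simp [map_sub, map_mul, hV, hW]
  have s4 : φ0 ((vec g x * vec g' x * (vec g y * vec g' y)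
      * ((vec g y - vec g x) * (vec g' y - vec g' x)) : 𝓞 K) : K)
      = V * (starRingEnd ℂ) V * (W * (starRingEnd ℂ) W)
        * ((W - V) * ((starRingEnd ℂ) W - (starRingEnd ℂ) V)) := by
    rw [← c1, ← c2]; simp [map_sub, map_mul, hV, hW]
  -- the circle
  have E0 := dist_one_mul d0
  have E1 := dist_one_mul d1
  have E2 := dist_one_mul d2
  rw [map_add, map_mul] at E1 E2
  set lb := (starRingEnd ℂ) lam with hlb
  have rel := circumC (V := V) (V' := (starRingEnd ℂ) V) (W := W) (W' := (starRingEnd ℂ) W)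
    (c := (z - p) / lam) (c' := ((starRingEnd ℂ) z - (starRingEnd ℂ) p) / lb)
    (R := 1 / (lam * lb))
    (by
      rw [div_mul_div_comm, div_left_inj' (mul_ne_zero hlam hlam')]
      linear_combination E0)
    (by
      have h1 : V - (z - p) / lam = (p + lam * V - z) / lam := by field_simp; ring
      have h2 : (starRingEnd ℂ) V - ((starRingEnd ℂ) z - (starRingEnd ℂ) p) / lb
          = ((starRingEnd ℂ) p + lb * (starRingEnd ℂ) V - (starRingEnd ℂ) z) / lb := by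
        field_simp; ring
      rw [h1, h2, div_mul_div_comm, E1])
    (by
      have h1 : W - (z - p) / lam = (p + lam * W - z) / lam := by field_simp; ring
      have h2 : (starRingEnd ℂ) W - ((starRingEnd ℂ) z - (starRingEnd ℂ) p) / lb
          = ((starRingEnd ℂ) p + lb * (starRingEnd ℂ) W - (starRingEnd ℂ) z) / lb := by
        field_simp; ring
      rw [h1, h2, div_mul_div_comm, E2])
  have hVc : (starRingEnd ℂ) V ≠ 0 := by simpa using hV0
  have hWc : (starRingEnd ℂ) W ≠ 0 := by simpa using hW0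
  have hVWc : (starRingEnd ℂ) W - (starRingEnd ℂ) V ≠ 0 := by
    rw [← map_sub]; exact (map_ne_zero _).mpr hVW
  have hdelta : V * (starRingEnd ℂ) W - (starRingEnd ℂ) V * W ≠ 0 := by
    intro h0
    rw [h0] at rel
    have h1 : V * (starRingEnd ℂ) V * (W * (starRingEnd ℂ) W)
        * ((W - V) * ((starRingEnd ℂ) W - (starRingEnd ℂ) V)) = 0 := by
      have : (1 / (lam * lb)) * (0 : ℂ) ^ 2 = 0 := by simp
      rw [this] at rel
      exact neg_eq_zero.mp rel.symm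
    exact (mul_ne_zero (mul_ne_zero (mul_ne_zero hV0 hVc) (mul_ne_zero hW0 hWc))
      (mul_ne_zero hVW hVWc)) h1
  have hmB : m * B ≤ m * max B B' := mul_le_mul_of_nonneg_left (le_max_left _ _) hm
  have hmB' : m * B' ≤ m * max B B' := mul_le_mul_of_nonneg_left (le_max_right _ _) hm
  refine ⟨toO _ hV0, toO _ (by rw [c1]; exact hVc), toO _ hW0, toO _ (by rw [c2]; exact hWc),
    toO _ (by rw [s1]; exact hVW), toO _ (by rw [s2]; exact hVWc),
    toO _ (by rw [s3]; exact hdelta), ?_, ?_⟩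
  · rw [s3, s4]
    exact rel
  · intro φ
    refine ⟨(hB m x hm hx φ).trans hmB, (hB' m x hm hx φ).trans hmB', (hB m y hm hy φ).trans hmB,
      (hB' m y hm hy φ).trans hmB', ?_, ?_⟩
    · rw [← vec_sub]
      exact (hB m (y - x) hm (fun i => by simpa using hyx i) φ).trans hmB
    · rw [← vec_sub]
      exact (hB' m (y - x) hm (fun i => by simpa using hyx i) φ).trans hmB'

end Pool.Agent.Lib.MPb0e841.NF
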