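import Mathlib

/-! MP_b0e841_co, specialization lemma S1 (Kronecker evaluation into a cyclotomic field). -/

set_option autoImplicit false

namespace Pool.Agent.Lib.MPb0e841.NF

open MvPolynomial

/-- Kronecker exponent of a monomial -/
def S1_e (s D : ℕ) (a : Fin s →₀ ℕ) : ℕ := ∑ j : Fin s, a j * (D + 1) ^ (j : ℕ)

lemma S1_e_lt {s D : ℕ} {a : Fin s →₀ ℕ} (ha : ∀ j, a j ≤ D) : S1_e s D a < (D + 1) ^ s := by
  have h := finFunctionFinEquiv_apply_val (m := D + 1) (n := s)
    (fun j => ⟨a j, Nat.lt_succ_of_le (ha j)⟩)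
  have h2 := (finFunctionFinEquiv (m := D + 1) (n := s)
    (fun j => ⟨a j, Nat.lt_succ_of_le (ha j)⟩)).2
  rw [h] at h2
  exact h2

lemma S1_e_inj {s D : ℕ} {a b : Fin s →₀ ℕ} (ha : ∀ j, a j ≤ D) (hb : ∀ j, b j ≤ D)
    (h : S1_e s D a = S1_e s D b) : a = b := by
  have h1 : finFunctionFinEquiv (m := D + 1) (n := s) (fun j => ⟨a j, Nat.lt_succ_of_le (ha j)⟩) =
      finFunctionFinEquiv (m := D + 1) (n := s) (fun j => ⟨b j, Nat.lt_succ_of_le (hb j)⟩) := by
    apply Fin.ext
    rw [finFunctionFinEquiv_apply_val, finFunctionFinEquiv_apply_val]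
    exact h
  have h2 := finFunctionFinEquiv.injective h1
  ext j
  have h3 := congrFun h2 j
  exact congrArg Fin.val h3

lemma S1_aeval (s D : ℕ) (p : MvPolynomial (Fin s) ℚ) :
    aeval (fun j : Fin s => (Polynomial.X : Polynomial ℚ) ^ ((D + 1) ^ (j : ℕ))) p =
      ∑ a ∈ p.support, Polynomial.monomial (S1_e s D a) (p.coeff a) := by
  rw [aeval_def, eval₂_eq']
  refine Finset.sum_congr rfl fun a _ => ?_
  rw [← Polynomial.C_mul_X_pow_eq_monomial]
  congr 1
  rw [S1_e, ← Finset.prod_pow_eq_pow_sum]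
  refine Finset.prod_congr rfl fun j _ => ?_
  rw [← pow_mul, mul_comm]

theorem exists_eval (s D : ℕ) : ∃ (L : Type) (_ : Field L) (_ : NumberField L)
    (ev : MvPolynomial (Fin s) ℚ →+* L),
    ∀ p : MvPolynomial (Fin s) ℚ, p ≠ 0 → p.totalDegree ≤ D → ev p ≠ 0 := by
  obtain ⟨l, hl, hp⟩ := Nat.exists_infinite_primes ((D + 1) ^ s + 2)
  have : Fact l.Prime := ⟨hp⟩
  have : NeZero l := ⟨hp.ne_zero⟩
  have : NeZero ((l : ℕ) : ℚ) := ⟨by exact_mod_cast hp.ne_zero⟩
  have hcyc : IsCyclotomicExtension {l} ℚ (CyclotomicField l ℚ) :=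
    CyclotomicField.isCyclotomicExtension l ℚ
  have hnf : NumberField (CyclotomicField l ℚ) := inferInstance
  have hζ : IsPrimitiveRoot (IsCyclotomicExtension.zeta l ℚ (CyclotomicField l ℚ)) l :=
    IsCyclotomicExtension.zeta_spec l ℚ (CyclotomicField l ℚ)
  set ζ := IsCyclotomicExtension.zeta l ℚ (CyclotomicField l ℚ) with hζd
  refine ⟨CyclotomicField l ℚ, inferInstance, hnf,
    (aeval (fun j : Fin s => ζ ^ ((D + 1) ^ (j : ℕ))) :
      MvPolynomial (Fin s) ℚ →ₐ[ℚ] CyclotomicField l ℚ).toRingHom, fun p hp0 hdeg h0 => ?_⟩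
  have hD : ∀ a ∈ p.support, ∀ j, a j ≤ D := by
    intro a ha j
    refine le_trans ?_ ((le_totalDegree ha).trans hdeg)
    rw [Finsupp.sum]
    by_cases hj : j ∈ a.support
    · exact Finset.single_le_sum (f := fun i => a i) (fun i _ => Nat.zero_le _) hj
    · rw [Finsupp.notMem_support_iff.1 hj]
      exact Nat.zero_le _
  set q : Polynomial ℚ :=
    aeval (fun j : Fin s => (Polynomial.X : Polynomial ℚ) ^ ((D + 1) ^ (j : ℕ))) p with hq
  have hqs := S1_aeval s D p
  rw [← hq] at hqs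
  have hq0 : q ≠ 0 := by
    obtain ⟨a, ha⟩ := (support_nonempty (p := p)).2 hp0
    intro hzero
    have h1 : q.coeff (S1_e s D a) = p.coeff a := by
      rw [hqs, Polynomial.finsetSum_coeff, Finset.sum_eq_single a]
      · rw [Polynomial.coeff_monomial, if_pos rfl]
      · intro b hb hba
        rw [Polynomial.coeff_monomial, if_neg]
        intro hcon
        exact hba (S1_e_inj (hD b hb) (hD a ha) hcon)
      · intro hcon
        exact absurd ha hcon
    rw [hzero, Polynomial.coeff_zero] at h1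
    exact (mem_support_iff.1 ha) h1.symm
  have hqd : q.natDegree < (D + 1) ^ s := by
    rw [hqs]
    refine lt_of_le_of_lt (Polynomial.natDegree_sum_le_of_forall_le (n := (D + 1) ^ s - 1) _ _ ?_) ?_
    · intro a ha
      refine (Polynomial.natDegree_monomial_le _).trans ?_
      have := S1_e_lt (hD a ha)
      omega
    · have : 0 < (D + 1) ^ s := by positivity
      omega
  have hev : Polynomial.aeval ζ q = 0 := by
    have h1 : Polynomial.aeval ζ q = aeval (fun j : Fin s => ζ ^ ((D + 1) ^ (j : ℕ))) p := by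
      rw [hq, ← AlgHom.comp_apply]
      congr 1
      apply algHom_ext
      intro j
      simp
    rw [h1]
    exact h0
  have hdvd := minpoly.dvd ℚ ζ hev
  rw [← Polynomial.cyclotomic_eq_minpoly_rat hζ hp.pos] at hdvd
  have h2 := Polynomial.natDegree_le_of_dvd hdvd hq0
  rw [Polynomial.natDegree_cyclotomic, Nat.totient_prime hp] at h2
  omega

end Pool.Agent.Lib.MPb0e841.NF
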