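import Mathlib

/-! MP_b0e841_co, specialization lemma S2: Cayley-Hamilton with a uniform degree bound. -/

namespace Pool.Agent.Lib.MPb0e841.NF

open MvPolynomial

/-- If `p ≠ 0` kills `f ≠ 0` then `f` divides the image of a nonzero coefficient of `p`. -/
theorem exists_coeff_dvd {A R : Type} [CommRing A] [CommRing R] [IsDomain R] [Algebra A R]
    (f : R) (hf : f ≠ 0) : ∀ (n : ℕ) (p : Polynomial A), p.natDegree ≤ n → p ≠ 0 →
      Polynomial.aeval f p = 0 →
      ∃ k, p.coeff k ≠ 0 ∧ f ∣ algebraMap A R (p.coeff k) := by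
  intro n
  induction n with
  | zero =>
    intro p hp hp0 ha
    have hC := Polynomial.eq_C_of_natDegree_le_zero hp
    refine ⟨0, ?_, ?_⟩
    · intro h0
      rw [h0, Polynomial.C_0] at hC
      exact hp0 hC
    · rw [hC, Polynomial.aeval_C] at ha
      rw [ha]; exact dvd_zero _
  | succ n ih =>
    intro p hp hp0 ha
    by_cases h0 : p.coeff 0 = 0
    · have hX : p.divX * Polynomial.X = p := by
        have := Polynomial.divX_mul_X_add p
        rw [h0, Polynomial.C_0, add_zero] at this
        exact this
      have hd0 : p.divX ≠ 0 := by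
        intro h
        rw [h, zero_mul] at hX
        exact hp0 hX.symm
      have hdeg : p.divX.natDegree ≤ n := by
        rw [Polynomial.natDegree_divX_eq_natDegree_tsub_one]; omega
      have hav : Polynomial.aeval f p.divX = 0 := by
        rw [← hX, map_mul, Polynomial.aeval_X] at ha
        exact (mul_eq_zero.1 ha).resolve_right hf
      obtain ⟨k, hk, hk'⟩ := ih p.divX hdeg hd0 hav
      rw [Polynomial.coeff_divX] at hk hk'
      exact ⟨k + 1, hk, hk'⟩
    · refine ⟨0, h0, ?_⟩
      have h1 := Polynomial.divX_mul_X_add p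
      rw [← h1] at ha
      simp only [map_add, map_mul, Polynomial.aeval_X, Polynomial.aeval_C] at ha
      exact ⟨-(Polynomial.aeval f p.divX), by linear_combination ha⟩

theorem represents_sum {A R : Type} [CommRing A] [AddCommGroup R] [Module A R]
    {q : ℕ} {m : Fin q → R} {ι : Type} (s : Finset ι)
    (T : ι → Matrix (Fin q) (Fin q) A) (F : ι → Module.End A R)
    (h : ∀ i ∈ s, (T i).Represents m (F i)) :
    (∑ i ∈ s, T i).Represents m (∑ i ∈ s, F i) := by
  classical
  induction s using Finset.induction_on with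
  | empty => simpa using (Matrix.Represents.zero (b := m) (R := A))
  | insert a s ha ih =>
    rw [Finset.sum_insert ha, Finset.sum_insert ha]
    exact (h a (Finset.mem_insert_self a s)).add
      (ih (fun i hi => h i (Finset.mem_insert_of_mem hi)))

/-- One polynomial over the generic coefficient ring which works for all linear combinations. -/
theorem exists_generic {A R : Type} [CommRing A] [Nontrivial A] [CommRing R] [IsDomain R]
    [Algebra A R] [Module.Finite A R] {ι : Type} [Fintype ι] (b : ι → R) :
    ∃ P : Polynomial (MvPolynomial ι A), ∀ c : ι → A,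
      (∑ i, algebraMap A R (c i) * b i) ≠ 0 →
      ∃ k, MvPolynomial.eval c (P.coeff k) ≠ 0 ∧
        (∑ i, algebraMap A R (c i) * b i) ∣
          algebraMap A R (MvPolynomial.eval c (P.coeff k)) := by
  classical
  obtain ⟨q, m, hm⟩ := Submodule.fg_iff_exists_fin_generating_family.1
    (Module.finite_def.1 (inferInstance : Module.Finite A R))
  have hrep : ∀ i, ∃ T : Matrix (Fin q) (Fin q) A,
      T.Represents m (Algebra.lmul A R (b i)) := by
    intro i
    obtain ⟨M, hM⟩ := Matrix.isRepresentation.toEnd_surjective A m hm (Algebra.lmul A R (b i))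
    refine ⟨M, ?_⟩
    rw [← hM]
    exact Matrix.isRepresentation.toEnd_represents A m hm M
  choose T hT using hrep
  let G : Matrix (Fin q) (Fin q) (MvPolynomial ι A) :=
    ∑ i, (X i : MvPolynomial ι A) • (T i).map (C : A →+* MvPolynomial ι A)
  refine ⟨G.charpoly, fun c hf => ?_⟩
  have hmap : G.map (MvPolynomial.eval c) = ∑ i, c i • T i := by
    ext a a'
    simp [G, Matrix.sum_apply, Matrix.map_apply]
  have hchar : (G.charpoly).map (MvPolynomial.eval c) = (∑ i, c i • T i).charpoly := by
    rw [← hmap, Matrix.charpoly_map]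
  set f : R := ∑ i, algebraMap A R (c i) * b i with hfdef
  have hrep2 : (∑ i, c i • T i).Represents m (Algebra.lmul A R f) := by
    have h1 : Algebra.lmul A R f = ∑ i, c i • Algebra.lmul A R (b i) := by
      rw [hfdef, map_sum]
      refine Finset.sum_congr rfl (fun i _ => ?_)
      rw [← Algebra.smul_def, map_smul]
    rw [h1]
    exact represents_sum _ _ _ (fun i _ => (hT i).smul (c i))
  have hzero : Polynomial.aeval f (∑ i, c i • T i).charpoly = 0 := by
    have h2 := Matrix.isRepresentation.eq_toEnd_of_represents A m hm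
      ⟨∑ i, c i • T i, Algebra.lmul A R f, hrep2⟩ hrep2
    have h3 : Polynomial.aeval (Algebra.lmul A R f) (∑ i, c i • T i).charpoly = 0 := by
      rw [← h2, Polynomial.aeval_algHom_apply,
        ← map_zero (Matrix.isRepresentation.toEnd A m hm)]
      congr 1
      ext1
      rw [Polynomial.aeval_subalgebra_coe, Matrix.aeval_self_charpoly, Subalgebra.coe_zero]
    rw [Polynomial.aeval_algHom_apply] at h3
    have h4 := LinearMap.congr_fun h3 1
    simpa using h4
  have hne : (∑ i, c i • T i).charpoly ≠ 0 := (Matrix.charpoly_monic _).ne_zero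
  obtain ⟨k, hk, hk'⟩ := exists_coeff_dvd f hf _ _ le_rfl hne hzero
  rw [← hchar, Polynomial.coeff_map] at hk hk'
  exact ⟨k, hk, hk'⟩

/-- S2. -/
theorem exists_dvd_bounded {s : ℕ} {R : Type} [CommRing R] [IsDomain R]
    [Algebra (MvPolynomial (Fin s) ℚ) R] [Module.Finite (MvPolynomial (Fin s) ℚ) R]
    {ι : Type} [Fintype ι] (b : ι → R) :
    ∃ D : ℕ, ∀ c : ι → ℚ,
      (∑ i, algebraMap (MvPolynomial (Fin s) ℚ) R (C (c i)) * b i) ≠ 0 →
      ∃ h : MvPolynomial (Fin s) ℚ, h ≠ 0 ∧ h.totalDegree ≤ D ∧
        (∑ i, algebraMap (MvPolynomial (Fin s) ℚ) R (C (c i)) * b i) ∣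
          algebraMap (MvPolynomial (Fin s) ℚ) R h := by
  classical
  obtain ⟨P, hP⟩ := exists_generic (A := MvPolynomial (Fin s) ℚ) b
  refine ⟨P.support.sup (fun k => (P.coeff k).support.sup
    (fun e => ((P.coeff k).coeff e).totalDegree)), fun c hc => ?_⟩
  obtain ⟨k, hk, hdvd⟩ := hP (fun i => C (c i)) hc
  refine ⟨_, hk, ?_, hdvd⟩
  have hkS : k ∈ P.support := by
    rw [Polynomial.mem_support_iff]
    intro h0
    rw [h0, map_zero] at hk
    exact hk rfl
  refine le_trans ?_ (Finset.le_sup (f := fun k => (P.coeff k).support.sup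
    (fun e => ((P.coeff k).coeff e).totalDegree)) hkS)
  rw [MvPolynomial.eval_eq']
  refine (MvPolynomial.totalDegree_finsetSum _ _).trans (Finset.sup_le (fun e he => ?_))
  refine le_trans ?_ (Finset.le_sup (f := fun e => ((P.coeff k).coeff e).totalDegree) he)
  have h5 : (∏ i, (C (c i) : MvPolynomial (Fin s) ℚ) ^ e i) = C (∏ i, c i ^ e i) := by
    rw [map_prod]
    exact Finset.prod_congr rfl (fun i _ => (map_pow C (c i) (e i)).symm)
  rw [h5]
  refine (MvPolynomial.totalDegree_mul _ _).trans ?_
  rw [MvPolynomial.totalDegree_C, add_zero]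

end Pool.Agent.Lib.MPb0e841.NF
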