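import Mathlib
import Pool.Agent.Lib.MP_b0e841_co.NF.S1
import Pool.Agent.Lib.MP_b0e841_co.NF.S2

/-!
Specialization of a finitely generated domain over `ℚ` to a number field which is injective on a
given finite dimensional subspace.
-/

namespace Pool.Agent.Lib.MPb0e841.NF

open MvPolynomial

lemma quot_field {A R L0 : Type} [CommRing A] [CommRing R] [IsDomain R] [Field L0]
    [NumberField L0] [Algebra ℚ A] [Algebra ℚ R] [Algebra.FiniteType ℚ R]
    (g : A →+* R) (hg : g.IsIntegral) (ev : A →+* L0) (Q : Ideal R) (hQ : Q.IsPrime)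
    (hc : Q.comap g = RingHom.ker ev) :
    ∃ (L : Type) (_ : Field L) (_ : NumberField L) (ψ : R →+* L), ∀ x, ψ x = 0 → x ∈ Q := by
  set P := RingHom.ker ev with hP
  let j : A ⧸ P →+* L0 := RingHom.kerLift ev
  have hj : Function.Injective j := RingHom.kerLift_injective ev
  let f1 : ℚ →+* A ⧸ P := (Ideal.Quotient.mk P).comp (algebraMap ℚ A)
  have hf1 : f1.IsIntegral := by
    intro y
    have h1 : (algebraMap ℚ L0).IsIntegralElem (j y) := by
      have := Algebra.IsIntegral.isIntegral (R := ℚ) (j y)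
      exact this
    obtain ⟨p, hp, hp0⟩ := h1
    refine ⟨p, hp, ?_⟩
    apply hj
    rw [map_zero, Polynomial.hom_eval₂]
    have : j.comp f1 = algebraMap ℚ L0 := Subsingleton.elim _ _
    rw [this]
    exact hp0
  have hPQ : P ≤ Q.comap g := hc.ge
  let f2 : A ⧸ P →+* R ⧸ Q := Ideal.quotientMap Q g hPQ
  have hf2 : f2.IsIntegral := by
    intro y
    obtain ⟨x, rfl⟩ := Ideal.Quotient.mk_surjective y
    obtain ⟨p, hp, hp0⟩ := hg x
    refine ⟨p.map (Ideal.Quotient.mk P), hp.map _, ?_⟩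
    rw [Polynomial.eval₂_map]
    have : f2.comp (Ideal.Quotient.mk P) = (Ideal.Quotient.mk Q).comp g := by
      ext a
      simp [f2]
    rw [this, ← Polynomial.hom_eval₂, hp0, map_zero]
  have hint : (algebraMap ℚ (R ⧸ Q)).IsIntegral := by
    have h1 := RingHom.IsIntegral.trans f1 f2 hf1 hf2
    have : f2.comp f1 = algebraMap ℚ (R ⧸ Q) := Subsingleton.elim _ _
    rwa [this] at h1
  have hAI : Algebra.IsIntegral ℚ (R ⧸ Q) := ⟨fun x => hint x⟩
  have hdom : IsDomain (R ⧸ Q) := Ideal.Quotient.isDomain Q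
  have hF : IsField (R ⧸ Q) :=
    isField_of_isIntegral_of_isField' (R := ℚ) (Field.toIsField ℚ)
  have hfin : Module.Finite ℚ (R ⧸ Q) := Algebra.IsIntegral.finite
  let fld : Field (R ⧸ Q) := hF.toField
  have hcz : CharZero (R ⧸ Q) := algebraRat.charZero (R ⧸ Q)
  refine ⟨R ⧸ Q, fld, ?_, Ideal.Quotient.mk Q, fun x hx => ?_⟩
  · refine @NumberField.mk (R ⧸ Q) fld hcz ?_
    convert hfin
    exact Subsingleton.elim _ _
  · exact Ideal.Quotient.eq_zero_iff_mem.mp hx

theorem exists_specialization (R : Type) [CommRing R] [IsDomain R] [Algebra ℚ R]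
    [Algebra.FiniteType ℚ R] {ι : Type} [Fintype ι] (b : ι → R) :
    ∃ (L : Type) (_ : Field L) (_ : NumberField L) (ψ : R →+* L),
      ∀ c : ι → ℤ, (∑ i, (c i : R) * b i) ≠ 0 → ψ (∑ i, (c i : R) * b i) ≠ 0 := by
  obtain ⟨s, g, ginj, gfin⟩ := exists_finite_inj_algHom_of_fg ℚ R
  let alg : Algebra (MvPolynomial (Fin s) ℚ) R := g.toRingHom.toAlgebra
  have mf : Module.Finite (MvPolynomial (Fin s) ℚ) R := gfin
  obtain ⟨D, hD⟩ := exists_dvd_bounded (s := s) (R := R) b
  obtain ⟨L0, fL0, nL0, ev, hev⟩ := exists_eval s D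
  have hprime : (RingHom.ker ev).IsPrime := RingHom.ker_isPrime ev
  have hint : (g : MvPolynomial (Fin s) ℚ →+* R).IsIntegral := gfin.to_isIntegral
  have hAint : Algebra.IsIntegral (MvPolynomial (Fin s) ℚ) R := ⟨fun x => hint x⟩
  obtain ⟨Q, hQ, hc⟩ := Ideal.exists_ideal_over_prime_of_isIntegral_of_isDomain
    (S := R) (RingHom.ker ev) (by
      have : RingHom.ker (algebraMap (MvPolynomial (Fin s) ℚ) R) = ⊥ :=
        (RingHom.injective_iff_ker_eq_bot _).mp ginj
      rw [this]; exact bot_le)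
  obtain ⟨L, fL, nL, ψ, hψ⟩ := quot_field (A := MvPolynomial (Fin s) ℚ) (R := R)
    (g : MvPolynomial (Fin s) ℚ →+* R) hint ev Q hQ hc
  refine ⟨L, fL, nL, ψ, fun c hne h0 => ?_⟩
  have hmem := hψ _ h0
  have hcast : ∑ i, algebraMap (MvPolynomial (Fin s) ℚ) R (C ((c i : ℤ) : ℚ)) * b i
      = ∑ i, (c i : R) * b i := by
    apply Finset.sum_congr rfl
    intro i _
    congr 1
    simp
  obtain ⟨h, hh0, hhD, hdvd⟩ := hD (fun i => ((c i : ℤ) : ℚ)) (by rw [hcast]; exact hne)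
  rw [hcast] at hdvd
  have h1 : algebraMap (MvPolynomial (Fin s) ℚ) R h ∈ Q := Q.mem_of_dvd hdvd hmem
  have h2 : h ∈ Q.comap (algebraMap (MvPolynomial (Fin s) ℚ) R) := h1
  rw [hc] at h2
  exact hev h hh0 hhD h2

end Pool.Agent.Lib.MPb0e841.NF
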