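import Mathlib
import Pool.Agent.Lib.MP_b0e841_co.NF.SidesIdx
import Pool.Agent.Lib.MP_b0e841_co.NF.Main
import Pool.Agent.Lib.MP_b0e841_co.NF.S3

/-!
From complex numbers `e_1, ..., e_k` to algebraic integers of a number field.
-/

namespace Pool.Agent.Lib.MPb0e841.NF

open NumberField Finset

/-- Complex combination. -/
noncomputable def cv {k : ℕ} (e : Fin k → ℂ) (x : Fin k → ℤ) : ℂ := ∑ i, (x i : ℂ) * e i

lemma cv_sub {k : ℕ} (e : Fin k → ℂ) (x y : Fin k → ℤ) : cv e (x - y) = cv e x - cv e y := by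
  unfold cv
  rw [← Finset.sum_sub_distrib]
  apply Finset.sum_congr rfl
  intro i _
  simp only [Pi.sub_apply]
  push_cast
  ring

lemma conj_cv {k : ℕ} (e : Fin k → ℂ) (x : Fin k → ℤ) :
    (starRingEnd ℂ) (cv e x) = cv (fun i => (starRingEnd ℂ) (e i)) x := by
  unfold cv
  rw [map_sum]
  apply Finset.sum_congr rfl
  intro i _
  rw [map_mul]
  simp

/-- The transfer from `ℂ` to a number field. -/
lemma exists_transfer {k : ℕ} (e : Fin k → ℂ) :
    ∃ (K : Type) (_ : Field K) (_ : NumberField K) (g g' : Fin k → 𝓞 K),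
      (∀ x : Fin k → ℤ, cv e x ≠ 0 → vec g x ≠ 0) ∧
      (∀ x : Fin k → ℤ, (starRingEnd ℂ) (cv e x) ≠ 0 → vec g' x ≠ 0) ∧
      (∀ x y : Fin k → ℤ,
        cv e x * (starRingEnd ℂ) (cv e y) - (starRingEnd ℂ) (cv e x) * cv e y ≠ 0 →
        vec g x * vec g' y - vec g' x * vec g y ≠ 0) ∧
      (∀ x : Fin k → ℤ, vec g x = 0 → cv e x = 0) ∧
      (∀ x y z t : Fin k → ℤ,
        cv e x * (starRingEnd ℂ) (cv e x) * (cv e y * (starRingEnd ℂ) (cv e y))
            * ((cv e y - cv e x) * ((starRingEnd ℂ) (cv e y) - (starRingEnd ℂ) (cv e x)))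
            * (-(cv e z * (starRingEnd ℂ) (cv e t) - (starRingEnd ℂ) (cv e z) * cv e t) ^ 2)
          = (-(cv e x * (starRingEnd ℂ) (cv e y) - (starRingEnd ℂ) (cv e x) * cv e y) ^ 2)
            * (cv e z * (starRingEnd ℂ) (cv e z) * (cv e t * (starRingEnd ℂ) (cv e t))
            * ((cv e t - cv e z) * ((starRingEnd ℂ) (cv e t) - (starRingEnd ℂ) (cv e z)))) →
        vec g x * vec g' x * (vec g y * vec g' y)
            * ((vec g y - vec g x) * (vec g' y - vec g' x))
            * (-(vec g z * vec g' t - vec g' z * vec g t) ^ 2)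
          = (-(vec g x * vec g' y - vec g' x * vec g y) ^ 2)
            * (vec g z * vec g' z * (vec g t * vec g' t)
            * ((vec g t - vec g z) * (vec g' t - vec g' z)))) := by
  classical
  set S : Set ℂ := Set.range e ∪ Set.range (fun i => (starRingEnd ℂ) (e i)) with hS
  have hSf : S.Finite := (Set.finite_range _).union (Set.finite_range _)
  set R := Algebra.adjoin ℚ S with hR
  have hft : Algebra.FiniteType ℚ R := Algebra.FiniteType.adjoin_of_finite hSf
  have memR : ∀ x ∈ S, x ∈ R := fun x hx => Algebra.subset_adjoin hx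
  let a : Fin k → R := fun i => ⟨e i, memR _ (Or.inl ⟨i, rfl⟩)⟩
  let a' : Fin k → R := fun i => ⟨(starRingEnd ℂ) (e i), memR _ (Or.inr ⟨i, rfl⟩)⟩
  let b : (Fin k ⊕ Fin k) ⊕ (Fin k × Fin k) → R :=
    Sum.elim (Sum.elim a a') (fun ij => a ij.1 * a' ij.2)
  obtain ⟨K, fK, nK, ψ, hψ⟩ := exists_specialization R b
  -- combinations in R
  let A : (Fin k → ℤ) → R := fun x => ∑ i, (x i : R) * a i
  let A' : (Fin k → ℤ) → R := fun x => ∑ i, (x i : R) * a' i
  have hA : ∀ x, ((A x : R) : ℂ) = cv e x := by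
    intro x
    simp only [A, cv]
    rw [AddSubmonoidClass.coe_finsetSum]
    simp [a]
  have hA' : ∀ x, ((A' x : R) : ℂ) = (starRingEnd ℂ) (cv e x) := by
    intro x
    rw [conj_cv]
    simp only [A', cv]
    rw [AddSubmonoidClass.coe_finsetSum]
    simp [a']
  have ψA : ∀ x, A x ≠ 0 → ψ (A x) ≠ 0 := by
    intro x hx
    have h1 := hψ (Sum.elim (Sum.elim x 0) 0)
    simp only [b, Fintype.sum_sum_type, Sum.elim_inl, Sum.elim_inr, Pi.zero_apply, Int.cast_zero,
      zero_mul, Finset.sum_const_zero, add_zero] at h1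
    exact h1 hx
  have ψA' : ∀ x, A' x ≠ 0 → ψ (A' x) ≠ 0 := by
    intro x hx
    have h1 := hψ (Sum.elim (Sum.elim 0 x) 0)
    simp only [b, Fintype.sum_sum_type, Sum.elim_inl, Sum.elim_inr, Pi.zero_apply, Int.cast_zero,
      zero_mul, Finset.sum_const_zero, add_zero, zero_add] at h1
    exact h1 hx
  have hAA : ∀ x y, A x * A' y - A' x * A y
      = ∑ ij : Fin k × Fin k, ((x ij.1 * y ij.2 - y ij.1 * x ij.2 : ℤ) : R)
        * (a ij.1 * a' ij.2) := by
    intro x y
    have h1 : A x * A' y = ∑ i, ∑ j, ((x i : R) * a i) * ((y j : R) * a' j) := by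
      simp only [A, A']
      rw [Finset.sum_mul_sum]
    have h2 : A' x * A y = ∑ i, ∑ j, ((y i : R) * a i) * ((x j : R) * a' j) := by
      simp only [A, A']
      rw [mul_comm, Finset.sum_mul_sum]
    rw [h1, h2, Fintype.sum_prod_type, ← Finset.sum_sub_distrib]
    apply Finset.sum_congr rfl
    intro i _
    rw [← Finset.sum_sub_distrib]
    apply Finset.sum_congr rfl
    intro j _
    push_cast
    ring
  have ψD : ∀ x y, A x * A' y - A' x * A y ≠ 0 → ψ (A x * A' y - A' x * A y) ≠ 0 := by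
    intro x y hxy
    rw [hAA] at hxy ⊢
    have h1 := hψ (Sum.elim 0 (fun ij => x ij.1 * y ij.2 - y ij.1 * x ij.2))
    simp only [b, Fintype.sum_sum_type, Sum.elim_inl, Sum.elim_inr, Pi.zero_apply, Int.cast_zero,
      zero_mul, Finset.sum_const_zero, add_zero, zero_add] at h1
    exact h1 hxy
  -- denominators
  have hden : ∀ u : K, ∃ d : ℤ, d ≠ 0 ∧ IsIntegral ℤ ((d : K) * u) := by
    intro u
    have h2 : IsAlgebraic ℤ u :=
      (IsFractionRing.isAlgebraic_iff ℤ ℚ K).mpr (Algebra.IsAlgebraic.isAlgebraic u)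
    obtain ⟨y, hy, hi⟩ := h2.exists_integral_multiple
    exact ⟨y, hy, by simpa [zsmul_eq_mul] using hi⟩
  choose d hd hdi using hden
  set D : ℤ := (∏ i, d (ψ (a i))) * ∏ i, d (ψ (a' i)) with hD
  have hD0 : D ≠ 0 := mul_ne_zero (Finset.prod_ne_zero_iff.mpr (fun i _ => hd _))
    (Finset.prod_ne_zero_iff.mpr (fun i _ => hd _))
  have hDK : (D : K) ≠ 0 := by exact_mod_cast hD0
  have i1 : ∀ i, IsIntegral ℤ ((D : K) * ψ (a i)) := by
    intro i
    have h3 : (D : K) * ψ (a i)
        = (((∏ j ∈ Finset.univ.erase i, d (ψ (a j))) * ∏ j, d (ψ (a' j)) : ℤ) : K)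
          * ((d (ψ (a i)) : K) * ψ (a i)) := by
      rw [hD, ← Finset.prod_erase_mul Finset.univ (fun j => d (ψ (a j))) (Finset.mem_univ i)]
      push_cast
      ring
    rw [h3]
    exact IsIntegral.mul (isIntegral_algebraMap (R := ℤ) (A := K)
      (x := (∏ j ∈ Finset.univ.erase i, d (ψ (a j))) * ∏ j, d (ψ (a' j)))) (hdi _)
  have i2 : ∀ i, IsIntegral ℤ ((D : K) * ψ (a' i)) := by
    intro i
    have h3 : (D : K) * ψ (a' i)
        = (((∏ j, d (ψ (a j))) * ∏ j ∈ Finset.univ.erase i, d (ψ (a' j)) : ℤ) : K)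
          * ((d (ψ (a' i)) : K) * ψ (a' i)) := by
      rw [hD, ← Finset.prod_erase_mul Finset.univ (fun j => d (ψ (a' j))) (Finset.mem_univ i)]
      push_cast
      ring
    rw [h3]
    exact IsIntegral.mul (isIntegral_algebraMap (R := ℤ) (A := K)
      (x := (∏ j, d (ψ (a j))) * ∏ j ∈ Finset.univ.erase i, d (ψ (a' j)))) (hdi _)
  let g : Fin k → 𝓞 K := fun i => ⟨(D : K) * ψ (a i), i1 i⟩
  let g' : Fin k → 𝓞 K := fun i => ⟨(D : K) * ψ (a' i), i2 i⟩
  have hvK : ∀ (f : Fin k → 𝓞 K) (x : Fin k → ℤ),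
      ((vec f x : 𝓞 K) : K) = ∑ i, (x i : K) * (f i : K) := by
    intro f x
    unfold vec
    simp [map_sum, map_mul]
  have hgi : ∀ i, (g i : K) = (D : K) * ψ (a i) := fun i => rfl
  have hgi' : ∀ i, (g' i : K) = (D : K) * ψ (a' i) := fun i => rfl
  have hg : ∀ x, (vec g x : K) = (D : K) * ψ (A x) := by
    intro x
    have h1 : ((vec g x : 𝓞 K) : K) = ∑ i, (x i : K) * ((D : K) * ψ (a i)) := by
      rw [hvK]
      apply Finset.sum_congr rfl
      intro i _
      rw [hgi]
    rw [h1]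
    simp only [A, map_sum, map_mul, map_intCast]
    rw [Finset.mul_sum]
    apply Finset.sum_congr rfl
    intro i _
    ring
  have hg' : ∀ x, (vec g' x : K) = (D : K) * ψ (A' x) := by
    intro x
    have h1 : ((vec g' x : 𝓞 K) : K) = ∑ i, (x i : K) * ((D : K) * ψ (a' i)) := by
      rw [hvK]
      apply Finset.sum_congr rfl
      intro i _
      rw [hgi']
    rw [h1]
    simp only [A', map_sum, map_mul, map_intCast]
    rw [Finset.mul_sum]
    apply Finset.sum_congr rfl
    intro i _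
    ring
  have ne0 : ∀ u : 𝓞 K, (u : K) ≠ 0 → u ≠ 0 := by
    rintro u hu rfl
    exact hu (map_zero _)
  have Rne : ∀ u : R, (u : ℂ) ≠ 0 → u ≠ 0 := by
    rintro u hu rfl
    exact hu rfl
  refine ⟨K, fK, nK, g, g', ?_, ?_, ?_, ?_, ?_⟩
  · intro x hx
    apply ne0
    rw [hg]
    exact mul_ne_zero hDK (ψA x (Rne _ (by rw [hA]; exact hx)))
  · intro x hx
    apply ne0
    rw [hg']
    exact mul_ne_zero hDK (ψA' x (Rne _ (by rw [hA']; exact hx)))
  · intro x y hxy
    apply ne0
    have h1 : ((vec g x * vec g' y - vec g' x * vec g y : 𝓞 K) : K)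
        = (D : K) ^ 2 * ψ (A x * A' y - A' x * A y) := by
      have h2 : ((vec g x * vec g' y - vec g' x * vec g y : 𝓞 K) : K)
          = (vec g x : K) * (vec g' y : K) - (vec g' x : K) * (vec g y : K) := by
        simp [map_sub, map_mul]
      rw [h2, hg, hg, hg', hg', map_sub, map_mul, map_mul]
      ring
    rw [h1]
    apply mul_ne_zero (pow_ne_zero 2 hDK)
    apply ψD
    apply Rne
    have h2 : (((A x * A' y - A' x * A y : R)) : ℂ)
        = cv e x * (starRingEnd ℂ) (cv e y) - (starRingEnd ℂ) (cv e x) * cv e y := by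
      rw [← hA' x, ← hA' y, ← hA x, ← hA y]
      simp
    rw [h2]
    exact hxy
  · intro x hx
    by_contra hne
    have h1 : (vec g x : K) ≠ 0 := by
      rw [hg]
      exact mul_ne_zero hDK (ψA x (Rne _ (by rw [hA]; exact hne)))
    apply h1
    rw [hx]
    exact map_zero _
  · intro x y z t hC
    have hRel : A x * A' x * (A y * A' y) * ((A y - A x) * (A' y - A' x))
          * (-(A z * A' t - A' z * A t) ^ 2)
        = (-(A x * A' y - A' x * A y) ^ 2)
          * (A z * A' z * (A t * A' t) * ((A t - A z) * (A' t - A' z))) := by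
      apply Subtype.ext
      rw [← hA' x, ← hA' y, ← hA' z, ← hA' t, ← hA x, ← hA y, ← hA z, ← hA t] at hC
      push_cast
      exact hC
    have hK := congrArg ψ hRel
    simp only [map_mul, map_sub, map_neg, map_pow] at hK
    apply RingOfIntegers.ext
    have e1 : ∀ x y z t : Fin k → ℤ,
        ((vec g x * vec g' x * (vec g y * vec g' y) * ((vec g y - vec g x) * (vec g' y - vec g' x))
          * (-(vec g z * vec g' t - vec g' z * vec g t) ^ 2) : 𝓞 K) : K)
        = (vec g x : K) * (vec g' x : K) * ((vec g y : K) * (vec g' y : K))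
          * (((vec g y : K) - (vec g x : K)) * ((vec g' y : K) - (vec g' x : K)))
          * (-((vec g z : K) * (vec g' t : K) - (vec g' z : K) * (vec g t : K)) ^ 2) := by
      intro x y z t
      simp [map_mul, map_sub, map_neg, map_pow]
    have e2 : ((-(vec g x * vec g' y - vec g' x * vec g y) ^ 2
          * (vec g z * vec g' z * (vec g t * vec g' t)
          * ((vec g t - vec g z) * (vec g' t - vec g' z))) : 𝓞 K) : K)
        = (-((vec g x : K) * (vec g' y : K) - (vec g' x : K) * (vec g y : K)) ^ 2)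
          * ((vec g z : K) * (vec g' z : K) * ((vec g t : K) * (vec g' t : K))
          * (((vec g t : K) - (vec g z : K)) * ((vec g' t : K) - (vec g' z : K)))) := by
      simp [map_mul, map_sub, map_neg, map_pow]
    have e3 := e1 x y z t
    refine e3.trans (Eq.trans ?_ e2.symm)
    rw [hg, hg, hg, hg, hg', hg', hg', hg']
    linear_combination ((D : K) ^ 10) * hK

end Pool.Agent.Lib.MPb0e841.NF
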